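import Pool.Agent.TH892.SW.S1

/-!
Second moment over `K` of the sums of a function at the numbers `±(n² - K)`, with arbitrary bounded
coefficients `c n` (after `Pool/Agent/TH892/SW/S1`).
-/

set_option autoImplicit false

namespace Pool.Agent.N913.AW

open Finset
open Pool.Agent.W110.HV (cor cor_sq ES)
open Pool.Agent.TH892.SW (rc rc_cor rc_zero rc_big pair_sum fiber_le div_sq)

/-- the weighted sum of `f` at the values of `s (n² - K)` in `[1,Y]` -/
noncomputable def TC (c : ℕ → ℝ) (s : ℤ) (M Y : ℕ) (f : ℤ → ℝ) (K : ℤ) : ℝ :=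
  ∑ n ∈ Icc 1 M, c n * (if 1 ≤ s * ((n : ℤ) ^ 2 - K) ∧ s * ((n : ℤ) ^ 2 - K) ≤ Y then
    f (s * ((n : ℤ) ^ 2 - K)) else 0)

lemma energy (c : ℕ → ℝ) (s : ℤ) (hs : s = 1 ∨ s = -1) (M Y : ℕ) (f : ℤ → ℝ) :
    ∑ K ∈ Icc (-(Y : ℤ)) ((M : ℤ) ^ 2 + Y), TC c s M Y f K ^ 2 =
      ∑ n ∈ Icc 1 M, ∑ n' ∈ Icc 1 M, c n * c n' * rc Y f (s * ((n' : ℤ) ^ 2 - (n : ℤ) ^ 2)) := by
  have e1 : ∀ K : ℤ, TC c s M Y f K ^ 2 = ∑ n ∈ Icc 1 M, ∑ n' ∈ Icc 1 M, c n * c n' *
      ((if 1 ≤ s * ((n : ℤ) ^ 2 - K) ∧ s * ((n : ℤ) ^ 2 - K) ≤ Y then f (s * ((n : ℤ) ^ 2 - K)) else 0) *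
      (if 1 ≤ s * ((n' : ℤ) ^ 2 - K) ∧ s * ((n' : ℤ) ^ 2 - K) ≤ Y then f (s * ((n' : ℤ) ^ 2 - K)) else 0)) := by
    intro K
    unfold TC
    rw [sq, sum_mul_sum]
    refine sum_congr rfl fun n _ => sum_congr rfl fun n' _ => ?_
    ring
  simp_rw [e1]
  rw [sum_comm]
  refine sum_congr rfl fun n hn => ?_
  rw [sum_comm]
  refine sum_congr rfl fun n' _ => ?_
  rw [← mul_sum]
  rw [pair_sum s hs M Y n n' hn f]

/-- the second moment -/
theorem second (c : ℕ → ℝ) (hc : ∀ n, |c n| ≤ 1) (s : ℤ) (hs : s = 1 ∨ s = -1) (X M Y : ℕ)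
    (hX : X ≤ M ^ 2) (f : ℤ → ℝ) (Z Q : ℝ)
    (hsup : ∀ α : ℝ, ‖ES 1 (Y : ℤ) (fun n => (f n : ℂ)) α‖ ≤ Z)
    (hQ : ∑ u ∈ Icc (1 : ℤ) Y, f u ^ 2 ≤ Q) :
    ∑ K ∈ Icc (1 : ℤ) X, TC c s M Y f K ^ 2 ≤
      M * Q + √(2 * (Y * (1 + Real.log Y) ^ 4)) * √(Z ^ 2 * Q) := by
  classical
  have hQ0 : 0 ≤ Q := (sum_nonneg fun _ _ => sq_nonneg _).trans hQ
  have hcc : ∀ n n' : ℕ, |c n * c n'| ≤ 1 := by
    intro n n'
    rw [abs_mul]
    exact mul_le_one₀ (hc n) (abs_nonneg _) (hc n')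
  have h1 : ∑ K ∈ Icc (1 : ℤ) X, TC c s M Y f K ^ 2 ≤ ∑ K ∈ Icc (-(Y : ℤ)) ((M : ℤ) ^ 2 + Y), TC c s M Y f K ^ 2 := by
    apply sum_le_sum_of_subset_of_nonneg
    · intro K hK
      rw [mem_Icc] at hK ⊢
      have : (X : ℤ) ≤ (M : ℤ) ^ 2 := by exact_mod_cast hX
      constructor <;> linarith
    · intro _ _ _; positivity
  refine h1.trans ?_
  rw [energy c s hs]
  set I := Icc (-((Y : ℤ) - 1)) ((Y : ℤ) - 1) with hI
  set P := (Icc 1 M) ×ˢ (Icc 1 M) with hP
  set hf : ℕ × ℕ → ℤ := fun p => s * ((p.2 : ℤ) ^ 2 - (p.1 : ℤ) ^ 2) with hhf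
  have e1 : ∑ n ∈ Icc 1 M, ∑ n' ∈ Icc 1 M, c n * c n' * rc Y f (s * ((n' : ℤ) ^ 2 - (n : ℤ) ^ 2)) =
      ∑ p ∈ P, c p.1 * c p.2 * rc Y f (hf p) := by
    rw [hP, sum_product]
  rw [e1, ← sum_filter_add_sum_filter_not P (fun p => hf p = 0)]
  have hs0 : s ≠ 0 := by rcases hs with rfl | rfl <;> norm_num
  have h2 : ∑ p ∈ P.filter (fun p => hf p = 0), c p.1 * c p.2 * rc Y f (hf p) ≤ M * Q := by
    have e2 : ∀ p ∈ P.filter (fun p => hf p = 0), c p.1 * c p.2 * rc Y f (hf p) ≤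
        ∑ u ∈ Icc (1 : ℤ) Y, f u ^ 2 := by
      intro p hp
      rw [(mem_filter.1 hp).2, rc_zero]
      have h3 : 0 ≤ ∑ u ∈ Icc (1 : ℤ) Y, f u ^ 2 := sum_nonneg fun _ _ => sq_nonneg _
      calc c p.1 * c p.2 * ∑ u ∈ Icc (1 : ℤ) Y, f u ^ 2 ≤ 1 * ∑ u ∈ Icc (1 : ℤ) Y, f u ^ 2 :=
            mul_le_mul_of_nonneg_right ((le_abs_self _).trans (hcc _ _)) h3
        _ = _ := one_mul _
    refine (sum_le_sum e2).trans ?_
    rw [sum_const, nsmul_eq_mul]
    have h3 : ((P.filter (fun p => hf p = 0)).card : ℝ) ≤ M := by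
      have h4 : (P.filter (fun p => hf p = 0)).card ≤ (Icc 1 M).card := by
        refine card_le_card_of_injOn (fun p => p.1) ?_ ?_
        · intro p hp
          rw [mem_coe, mem_filter, hP, mem_product] at hp
          exact hp.1.1
        · intro p hp q hq hpq
          rw [mem_coe, mem_filter, hP, mem_product, mem_Icc, mem_Icc] at hp hq
          simp only at hpq
          have h5 : ∀ r : ℕ × ℕ, hf r = 0 → r.2 = r.1 := by
            intro r hr
            rw [hhf] at hr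
            simp only at hr
            rcases mul_eq_zero.1 hr with h6 | h6
            · exact absurd h6 hs0
            · have h7 : (r.2 : ℤ) ^ 2 = (r.1 : ℤ) ^ 2 := by linarith
              have h8 : r.2 ^ 2 = r.1 ^ 2 := by exact_mod_cast h7
              exact Nat.pow_left_injective (by norm_num) h8
          have h6 := h5 p hp.2
          have h7 := h5 q hq.2
          apply Prod.ext <;> omega
      rw [Nat.card_Icc, Nat.add_sub_cancel] at h4
      exact_mod_cast h4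
    calc _ ≤ (M : ℝ) * ∑ u ∈ Icc (1 : ℤ) Y, f u ^ 2 :=
          mul_le_mul_of_nonneg_right h3 (sum_nonneg fun _ _ => sq_nonneg _)
      _ ≤ M * Q := mul_le_mul_of_nonneg_left hQ (by positivity)
  have h3 : ∑ p ∈ P.filter (fun p => ¬ hf p = 0), c p.1 * c p.2 * rc Y f (hf p) ≤
      ∑ h ∈ I.filter (fun h => h ≠ 0), (h.natAbs.divisors.card : ℝ) * |rc Y f h| := by
    have h4 : ∑ p ∈ P.filter (fun p => ¬ hf p = 0), c p.1 * c p.2 * rc Y f (hf p) ≤
        ∑ p ∈ P.filter (fun p => hf p ∈ I.filter (fun h => h ≠ 0)), |rc Y f (hf p)| := by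
      calc ∑ p ∈ P.filter (fun p => ¬ hf p = 0), c p.1 * c p.2 * rc Y f (hf p)
          ≤ ∑ p ∈ P.filter (fun p => ¬ hf p = 0), |rc Y f (hf p)| := by
            refine sum_le_sum fun p _ => (le_abs_self _).trans ?_
            rw [abs_mul]
            calc |c p.1 * c p.2| * |rc Y f (hf p)| ≤ 1 * |rc Y f (hf p)| :=
                  mul_le_mul_of_nonneg_right (hcc _ _) (abs_nonneg _)
              _ = _ := one_mul _
        _ = ∑ p ∈ P.filter (fun p => hf p ∈ I.filter (fun h => h ≠ 0)), |rc Y f (hf p)| := by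
            symm
            apply sum_subset
            · intro p hp
              rw [mem_filter] at hp ⊢
              exact ⟨hp.1, (mem_filter.1 hp.2).2⟩
            · intro p hp hp2
              rw [mem_filter] at hp
              rw [rc_big, abs_zero]
              intro h5
              exact hp2 (mem_filter.2 ⟨hp.1, mem_filter.2 ⟨h5, hp.2⟩⟩)
    refine h4.trans ?_
    rw [← sum_fiberwise_of_maps_to (s := P.filter (fun p => hf p ∈ I.filter (fun h => h ≠ 0)))
      (t := I.filter (fun h => h ≠ 0)) (g := hf) (fun p hp => (mem_filter.1 hp).2)]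
    refine sum_le_sum fun h hh => ?_
    calc ∑ p ∈ (P.filter (fun p => hf p ∈ I.filter (fun h => h ≠ 0))).filter (fun p => hf p = h), |rc Y f (hf p)|
        = ∑ p ∈ (P.filter (fun p => hf p ∈ I.filter (fun h => h ≠ 0))).filter (fun p => hf p = h), |rc Y f h| := by
          refine sum_congr rfl fun p hp => ?_
          rw [(mem_filter.1 hp).2]
      _ = (((P.filter (fun p => hf p ∈ I.filter (fun h => h ≠ 0))).filter (fun p => hf p = h)).card : ℝ) * |rc Y f h| := by
          rw [sum_const, nsmul_eq_mul]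
      _ ≤ (h.natAbs.divisors.card : ℝ) * |rc Y f h| := by
          apply mul_le_mul_of_nonneg_right _ (abs_nonneg _)
          have h5 := fiber_le s hs M h (mem_filter.1 hh).2
          have h6 : (P.filter (fun p => hf p ∈ I.filter (fun h => h ≠ 0))).filter (fun p => hf p = h) ⊆
              P.filter (fun p => hf p = h) := by
            intro p hp
            rw [mem_filter, mem_filter] at hp
            exact mem_filter.2 ⟨hp.1.1, hp.2⟩
          exact_mod_cast (card_le_card h6).trans h5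
  have h4 : ∑ h ∈ I.filter (fun h => h ≠ 0), (h.natAbs.divisors.card : ℝ) * |rc Y f h| ≤
      √(2 * (Y * (1 + Real.log Y) ^ 4)) * √(Z ^ 2 * Q) := by
    have h5 := Real.sum_mul_le_sqrt_mul_sqrt (I.filter (fun h => h ≠ 0))
      (fun h : ℤ => (h.natAbs.divisors.card : ℝ)) (fun h => |rc Y f h|)
    refine h5.trans ?_
    apply mul_le_mul _ _ (Real.sqrt_nonneg _) (Real.sqrt_nonneg _)
    · apply Real.sqrt_le_sqrt
      have h6 := div_sq Y
      have h7 : ∑ h ∈ I.filter (fun h => h ≠ 0), (h.natAbs.divisors.card : ℝ) ^ 2 ≤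
          ∑ j ∈ ({1, -1} : Finset ℤ) ×ˢ Icc 1 Y, ((j.2.divisors.card : ℕ) : ℝ) ^ 2 := by
        have h8 : ∀ h ∈ I.filter (fun h => h ≠ 0), (h.natAbs.divisors.card : ℝ) ^ 2 =
            (fun j : ℤ × ℕ => ((j.2.divisors.card : ℕ) : ℝ) ^ 2) (h.sign, h.natAbs) := by
          intro h _; rfl
        rw [sum_congr rfl h8, ← sum_image (s := I.filter (fun h => h ≠ 0)) (g := fun h : ℤ => (h.sign, h.natAbs))
          (f := fun j : ℤ × ℕ => ((j.2.divisors.card : ℕ) : ℝ) ^ 2)]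
        · apply sum_le_sum_of_subset_of_nonneg
          · intro j hj
            rw [mem_image] at hj
            obtain ⟨h, hh, rfl⟩ := hj
            rw [mem_filter, hI, mem_Icc] at hh
            rw [mem_product, mem_insert, mem_singleton, mem_Icc]
            refine ⟨?_, by omega, by omega⟩
            rcases lt_trichotomy h 0 with h9 | h9 | h9
            · right; exact Int.sign_eq_neg_one_of_neg h9
            · exact absurd h9 hh.2
            · left; exact Int.sign_eq_one_of_pos h9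
          · intro _ _ _; positivity
        · intro h _ h' _ he
          rw [Prod.mk.injEq] at he
          rw [← Int.sign_mul_natAbs h, ← Int.sign_mul_natAbs h', he.1, he.2]
      refine h7.trans ?_
      rw [sum_product]
      simp only []
      rw [sum_const, show #({1, -1} : Finset ℤ) = 2 from rfl, nsmul_eq_mul]
      push_cast
      linarith
    · apply Real.sqrt_le_sqrt
      have h6 := cor_sq 1 (Y : ℤ) (fun n => (f n : ℂ)) (fun n => (f n : ℂ)) Z hsup
      have h7 : ∑ h ∈ I.filter (fun h => h ≠ 0), |rc Y f h| ^ 2 ≤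
          ∑ h ∈ Icc (-((Y : ℤ) - 1)) ((Y : ℤ) - 1), ‖cor 1 (Y : ℤ) (fun n => (f n : ℂ)) (fun n => (f n : ℂ)) h‖ ^ 2 := by
        calc ∑ h ∈ I.filter (fun h => h ≠ 0), |rc Y f h| ^ 2 ≤ ∑ h ∈ I, |rc Y f h| ^ 2 :=
              sum_le_sum_of_subset_of_nonneg (filter_subset _ _) (fun _ _ _ => by positivity)
          _ = _ := by
              refine sum_congr rfl fun h _ => ?_
              rw [rc_cor, Complex.norm_real, Real.norm_eq_abs]
      refine h7.trans (h6.trans ?_)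
      apply mul_le_mul_of_nonneg_left _ (sq_nonneg _)
      refine le_trans (le_of_eq ?_) hQ
      refine sum_congr rfl fun u _ => ?_
      rw [Complex.norm_real, Real.norm_eq_abs, sq_abs]
  linarith

end Pool.Agent.N913.AW
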