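import Pool.Agent.N913.AW.A1
import Pool.Agent.TH892.SW.S6

/-!
For all but few `K`, the weighted sum of the difference function over the values of `±(n² - K)` in `[1,Y]`,
uniformly in the weights (after `Pool/Agent/TH892/SW/S6`).
-/

set_option autoImplicit false

namespace Pool.Agent.N913.AW

open Finset Filter
open Pool.Agent.H373R2.T7 (pz Vz lamz)
open Pool.Agent.W110.HV (ES)
open Pool.Agent.H442R2.EHI (evt_log_pow evt_log_ge)
open Pool.Agent.TH892.SW (ff sup_ff sq_ff)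

theorem TC_most (U1 U2 C : ℕ) : ∃ B E1 : ℕ, ∀ E : ℕ, E1 ≤ E → ∃ X0 : ℕ, ∀ X : ℕ, X0 ≤ X →
    ∀ c : ℕ → ℝ, (∀ n, |c n| ≤ 1) → ∀ s : ℤ, (s = 1 ∨ s = -1) → ∀ Y : ℕ, √(X : ℝ) * Real.log X ^ B ≤ Y → (Y : ℝ) ≤ X * Real.log X ^ C →
    (((Icc 1 X).filter (fun K : ℕ => (Y : ℝ) / (√(X : ℝ) * Real.log X ^ U1) <
      |TC c s (Nat.sqrt (X + Y) + 1) Y (ff ⌊Real.log X ^ E⌋₊) K|)).card : ℝ) ≤ X / Real.log X ^ U2 := by
  classical
  set A := 2 * U1 + U2 + 5 with hA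
  set B := C + 2 * U1 + U2 + 4 with hB
  obtain ⟨B0, hB0⟩ := sup_ff A
  refine ⟨B, B0 + 2, fun E hE => ?_⟩
  obtain ⟨N0, hN0⟩ := hB0 (E + 1)
  obtain ⟨N1, hN1⟩ := sq_ff (E + 1)
  have hev : ∀ᶠ X : ℕ in atTop, (2 : ℝ) ^ (A + E + B0 + 20) ≤ Real.log X ∧ Real.log X ^ (C + 1) ≤ (X : ℝ) ^ (1 / 2 : ℝ) ∧
      (N0 + N1 + 2) ^ 2 ≤ X := by
    filter_upwards [evt_log_ge (2 ^ (A + E + B0 + 20)), evt_log_pow (C + 1) (1 / 2) (by norm_num),
      eventually_ge_atTop ((N0 + N1 + 2) ^ 2)] with X h1 h2 h3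
    exact ⟨h1, h2, h3⟩
  obtain ⟨X0, hX0⟩ := eventually_atTop.1 hev
  refine ⟨X0, fun X hX c hc s hs Y hY1 hY2 => ?_⟩
  obtain ⟨hL, hLC, hXN⟩ := hX0 X hX
  rw [← Real.sqrt_eq_rpow] at hLC
  set L := Real.log X with hLd
  set z := ⌊L ^ E⌋₊ with hz
  have hp20 : ∀ a b : ℕ, a + b ≤ A + E + B0 + 20 → (2 : ℝ) ^ a * 2 ^ b ≤ L := by
    intro a b hab
    rw [← pow_add]
    exact (pow_le_pow_right₀ (by norm_num) hab).trans hL
  have hL1024 : 1024 ≤ L := by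
    have := hp20 10 0 (by omega)
    norm_num at this
    exact this
  have hL0 : 0 < L := by linarith
  have hL1 : 1 ≤ L := by linarith
  have hLp0 : ∀ n : ℕ, 0 < L ^ n := fun n => by positivity
  have hLp : ∀ n : ℕ, 1 ≤ L ^ n := fun n => one_le_pow₀ hL1
  have hX1 : 1 ≤ X := by
    have : 1 ≤ (N0 + N1 + 2) ^ 2 := Nat.one_le_pow _ _ (by omega)
    omega
  have hXr : (1 : ℝ) ≤ X := by exact_mod_cast hX1
  have hX0' : (0 : ℝ) < X := by linarith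
  set S := √(X : ℝ) with hS
  have hSS : S * S = X := Real.mul_self_sqrt hX0'.le
  have hS1 : 1 ≤ S := by
    rw [hS]; exact Real.one_le_sqrt.2 hXr
  have hS0 : 0 < S := by linarith
  have hSY : S ≤ Y := by
    refine le_trans ?_ hY1
    have := hLp B
    nlinarith
  have hYr : (1 : ℝ) ≤ Y := hS1.trans hSY
  have hY0 : (0 : ℝ) < Y := by linarith
  have hYn : 1 ≤ Y := by exact_mod_cast hYr
  -- log Y
  set ℓ := Real.log Y with hℓ
  have hℓ1 : L / 2 ≤ ℓ := by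
    have h1 := Real.log_le_log hS0 hSY
    rw [hS, Real.log_sqrt hX0'.le] at h1
    exact h1
  have hℓ2 : ℓ ≤ 2 * L := by
    have h1 : (Y : ℝ) ≤ (X : ℝ) ^ 2 := by
      calc (Y : ℝ) ≤ X * L ^ C := hY2
        _ ≤ X * X := by
            apply mul_le_mul_of_nonneg_left _ hX0'.le
            calc L ^ C ≤ L ^ (C + 1) := pow_le_pow_right₀ hL1 (by omega)
              _ ≤ S := hLC
              _ ≤ S * S := by nlinarith
              _ = X := hSS
        _ = (X : ℝ) ^ 2 := by ring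
    have h2 := Real.log_le_log hY0 h1
    rw [Real.log_pow] at h2
    exact_mod_cast h2
  have hℓ0 : 0 < ℓ := by linarith
  have hYN : N0 + N1 + 2 ≤ Y := by
    have h1 : ((N0 + N1 + 2 : ℕ) : ℝ) ≤ S := by
      rw [hS]
      apply Real.le_sqrt_of_sq_le
      exact_mod_cast hXN
    exact_mod_cast h1.trans hSY
  -- z
  have hzle : (z : ℝ) ≤ L ^ E := Nat.floor_le (by positivity)
  have hLE2 : 2 ≤ L ^ E := by
    have : L ≤ L ^ E := le_self_pow₀ hL1 (by omega)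
    linarith
  have hzge : L ^ E / 2 ≤ z := by
    have := Nat.lt_floor_add_one (L ^ E)
    rw [← hz] at this
    linarith
  have hz1 : 1 ≤ z := by
    have : (1 : ℝ) ≤ z := by linarith
    exact_mod_cast this
  have hzB : ℓ ^ B0 ≤ z := by
    calc ℓ ^ B0 ≤ (2 * L) ^ B0 := pow_le_pow_left₀ hℓ0.le hℓ2 _
      _ = 2 ^ B0 * L ^ B0 := mul_pow _ _ _
      _ ≤ (L / 2) * L ^ B0 := by
          apply mul_le_mul_of_nonneg_right _ (hLp0 _).le
          have := hp20 B0 1 (by omega)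
          linarith
      _ ≤ (L * L / 2) * L ^ B0 := by
          apply mul_le_mul_of_nonneg_right _ (hLp0 _).le
          nlinarith
      _ = L ^ (B0 + 2) / 2 := by ring
      _ ≤ L ^ E / 2 := by
          have := pow_le_pow_right₀ hL1 hE
          linarith
      _ ≤ z := hzge
  have hzE : (z : ℝ) ≤ ℓ ^ (E + 1) := by
    calc (z : ℝ) ≤ L ^ E := hzle
      _ ≤ (2 * ℓ) ^ E := pow_le_pow_left₀ hL0.le (by linarith) _
      _ = 2 ^ E * ℓ ^ E := mul_pow _ _ _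
      _ ≤ ℓ * ℓ ^ E := by
          apply mul_le_mul_of_nonneg_right _ (by positivity)
          have := hp20 E 1 (by omega)
          linarith
      _ = ℓ ^ (E + 1) := by ring
  have hsup := hN0 Y (by omega) z hzB hzE
  obtain ⟨-, hsq⟩ := hN1 Y (by omega) z hz1 hzE
  rw [← hℓ] at hsup hsq
  -- the second moment
  set M := Nat.sqrt (X + Y) + 1 with hM
  have hXM : X ≤ M ^ 2 := by
    have h1 : X + Y < M ^ 2 := Nat.lt_succ_sqrt' (X + Y)
    omega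
  have h2 := second c hc s hs X M Y hXM (ff z) (Y / ℓ ^ A) (9 * Y * ℓ ^ 2) hsup hsq
  rw [← hℓ] at h2
  have hMr : (M : ℝ) ≤ 3 * (S * L ^ C) := by
    have h3 : ((Nat.sqrt (X + Y) : ℕ) : ℝ) ≤ 2 * (S * L ^ C) := by
      have h4 : ((Nat.sqrt (X + Y) : ℕ) : ℝ) ^ 2 ≤ (2 * (S * L ^ C)) ^ 2 := by
        calc ((Nat.sqrt (X + Y) : ℕ) : ℝ) ^ 2 ≤ ((X + Y : ℕ) : ℝ) := by exact_mod_cast Nat.sqrt_le' (X + Y)
          _ = X + Y := by push_cast; ring
          _ ≤ X * L ^ C + X * L ^ C := by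
              have := mul_le_mul_of_nonneg_left (hLp C) hX0'.le
              linarith
          _ = 2 * (S * S) * L ^ C * 1 := by rw [hSS]; ring
          _ ≤ 2 * (S * S) * L ^ C * (2 * L ^ C) := by
              apply mul_le_mul_of_nonneg_left _ (by positivity)
              have := hLp C
              linarith
          _ = (2 * (S * L ^ C)) ^ 2 := by ring
      exact (pow_le_pow_iff_left₀ (by positivity) (by positivity) (by norm_num)).1 h4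
    rw [hM]
    push_cast
    have h5 : 1 ≤ S * L ^ C := one_le_mul_of_one_le_of_one_le hS1 (hLp C)
    linarith
  have hT1 : (M : ℝ) * (9 * Y * ℓ ^ 2) ≤ Y ^ 2 * (L ^ (C + 3) / L ^ B) := by
    have h3 : S ≤ Y / L ^ B := by rw [le_div_iff₀ (hLp0 _)]; exact hY1
    calc (M : ℝ) * (9 * Y * ℓ ^ 2) ≤ (3 * (S * L ^ C)) * (9 * Y * (2 * L) ^ 2) := by gcongr
      _ = S * (Y * L ^ (C + 2)) * 108 := by ring
      _ ≤ S * (Y * L ^ (C + 2)) * L := by gcongr; linarith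
      _ = S * (Y * L ^ (C + 3)) := by ring
      _ ≤ (Y / L ^ B) * (Y * L ^ (C + 3)) := by gcongr
      _ = _ := by ring
  have hT2 : √(2 * (Y * (1 + ℓ) ^ 4)) * √((Y / ℓ ^ A) ^ 2 * (9 * Y * ℓ ^ 2)) ≤ Y ^ 2 * (L ^ 4 / L ^ A) := by
    rw [← Real.sqrt_mul (by positivity)]
    rw [show (Y : ℝ) ^ 2 * (L ^ 4 / L ^ A) = √((Y ^ 2 * (L ^ 4 / L ^ A)) ^ 2) by
      rw [Real.sqrt_sq (by positivity)]]
    apply Real.sqrt_le_sqrt
    have h3 : 1 / ℓ ^ A ≤ 2 ^ A / L ^ A := by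
      rw [← div_pow, div_eq_mul_inv 2 L, ← one_div_pow]
      apply pow_le_pow_left₀ (by positivity)
      rw [← div_eq_mul_inv, div_le_div_iff₀ hℓ0 hL0]
      linarith
    have h1ℓ : 1 + ℓ ≤ 4 * L := by linarith
    calc 2 * (Y * (1 + ℓ) ^ 4) * ((Y / ℓ ^ A) ^ 2 * (9 * Y * ℓ ^ 2))
        = 18 * (Y : ℝ) ^ 4 * (1 + ℓ) ^ 4 * ℓ ^ 2 * (1 / ℓ ^ A) ^ 2 := by ring
      _ ≤ 18 * (Y : ℝ) ^ 4 * (4 * L) ^ 4 * (2 * L) ^ 2 * (2 ^ A / L ^ A) ^ 2 := by gcongr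
      _ = (Y ^ 2 * (L ^ 3 / L ^ A)) ^ 2 * (18432 * (2 ^ A) ^ 2) := by ring
      _ ≤ (Y ^ 2 * (L ^ 3 / L ^ A)) ^ 2 * L ^ 2 := by
          apply mul_le_mul_of_nonneg_left _ (by positivity)
          have h4 := hp20 A 8 (by omega)
          calc 18432 * ((2 : ℝ) ^ A) ^ 2 ≤ (2 ^ A * 2 ^ 8) ^ 2 := by
                have : (0 : ℝ) < (2 ^ A) ^ 2 := by positivity
                nlinarith
            _ ≤ L ^ 2 := pow_le_pow_left₀ (by positivity) h4 2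
      _ = (Y ^ 2 * (L ^ 4 / L ^ A)) ^ 2 := by ring
  -- Chebyshev
  set τ : ℝ := Y / (S * L ^ U1) with hτ
  have hτ0 : 0 < τ := by positivity
  set Fs := (Icc 1 X).filter (fun K : ℕ => τ < |TC c s M Y (ff z) K|) with hFs
  have hch : (Fs.card : ℝ) * τ ^ 2 ≤ ∑ K ∈ Icc (1 : ℤ) X, TC c s M Y (ff z) K ^ 2 := by
    have e1 : ∑ K ∈ Icc (1 : ℤ) X, TC c s M Y (ff z) K ^ 2 = ∑ K ∈ Icc 1 X, TC c s M Y (ff z) (K : ℕ) ^ 2 := by
      symm
      refine sum_nbij' (fun n : ℕ => (n : ℤ)) (fun y : ℤ => y.toNat) ?_ ?_ ?_ ?_ ?_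
      · intro n hn
        rw [mem_Icc] at hn ⊢
        constructor <;> omega
      · intro y hy
        rw [mem_Icc] at hy ⊢
        constructor <;> omega
      · intro n _; simp
      · intro y hy
        rw [mem_Icc] at hy
        exact Int.toNat_of_nonneg (by omega)
      · intro n _; rfl
    rw [e1]
    calc (Fs.card : ℝ) * τ ^ 2 = ∑ K ∈ Fs, τ ^ 2 := by rw [sum_const, nsmul_eq_mul]
      _ ≤ ∑ K ∈ Fs, TC c s M Y (ff z) (K : ℕ) ^ 2 := by
          refine sum_le_sum fun K hK => ?_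
          rw [hFs, mem_filter] at hK
          rw [← sq_abs (TC c s M Y (ff z) (K : ℕ))]
          exact pow_le_pow_left₀ hτ0.le hK.2.le 2
      _ ≤ _ := sum_le_sum_of_subset_of_nonneg (filter_subset _ _) (fun _ _ _ => sq_nonneg _)
  have h3 : (Fs.card : ℝ) * τ ^ 2 ≤ Y ^ 2 * (L ^ (C + 3) / L ^ B + L ^ 4 / L ^ A) := by
    rw [mul_add]
    linarith
  have h4 : τ ^ 2 = Y ^ 2 / (X * L ^ (2 * U1)) := by
    rw [hτ, div_pow, mul_pow, sq S, hSS, ← pow_mul, mul_comm U1 2]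
  have h5 : L ^ (C + 3) / L ^ B + L ^ 4 / L ^ A ≤ 1 / (L ^ (2 * U1) * L ^ U2) := by
    have e1 : L ^ (C + 3) / L ^ B = 1 / (L ^ (2 * U1) * L ^ U2) * (1 / L) := by
      have e0 : L ^ B = L ^ (C + 3) * (L ^ (2 * U1) * L ^ U2) * L := by rw [hB]; ring
      rw [e0]
      have g1 := (hLp0 (C + 3)).ne'
      have g2 := (hLp0 (2 * U1)).ne'
      have g3 := (hLp0 U2).ne'
      field_simp
    have e2 : L ^ 4 / L ^ A = 1 / (L ^ (2 * U1) * L ^ U2) * (1 / L) := by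
      have e0 : L ^ A = L ^ 4 * (L ^ (2 * U1) * L ^ U2) * L := by rw [hA]; ring
      rw [e0]
      have g2 := (hLp0 (2 * U1)).ne'
      have g3 := (hLp0 U2).ne'
      field_simp
    rw [e1, e2, ← mul_add]
    have h6 : 1 / L + 1 / L ≤ 1 := by
      rw [← add_div, div_le_one hL0]; linarith
    calc _ ≤ 1 / (L ^ (2 * U1) * L ^ U2) * 1 := mul_le_mul_of_nonneg_left h6 (by positivity)
      _ = _ := mul_one _
  have h6 : (Fs.card : ℝ) * τ ^ 2 ≤ Y ^ 2 * (1 / (L ^ (2 * U1) * L ^ U2)) :=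
    h3.trans (mul_le_mul_of_nonneg_left h5 (by positivity))
  rw [h4, ← le_div_iff₀ (by positivity)] at h6
  refine h6.trans (le_of_eq ?_)
  field_simp

end Pool.Agent.N913.AW
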