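import Pool.Agent.N913.AW.A1
import Pool.Agent.TH892.SW.S7

/-!
Windows near the square root of `K`, with weights: from a grid of lengths to all windows
(after `Pool/Agent/TH892/SW/S7`).
-/

set_option autoImplicit false

namespace Pool.Agent.N913.AW

open Finset
open Pool.Agent.TH892.SW (ff gK gr grid)

/-- the weighted difference function at `|n² - K|` -/
noncomputable def gc (c : ℕ → ℝ) (z K n : ℕ) : ℝ := c n * gK z K n

lemma TC_plus (c : ℕ → ℝ) (M Y K z : ℕ) (hM : Nat.sqrt (K + Y) ≤ M) :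
    TC c 1 M Y (ff z) K = ∑ n ∈ Ioc (Nat.sqrt K) (Nat.sqrt (K + Y)), gc c z K n := by
  unfold TC
  simp_rw [mul_ite, mul_zero]
  rw [← sum_filter]
  have hset : (Icc 1 M).filter (fun n : ℕ => 1 ≤ 1 * ((n : ℤ) ^ 2 - (K : ℤ)) ∧ 1 * ((n : ℤ) ^ 2 - (K : ℤ)) ≤ Y) =
      Ioc (Nat.sqrt K) (Nat.sqrt (K + Y)) := by
    ext n
    rw [mem_filter, mem_Icc, mem_Ioc, Nat.sqrt_lt', Nat.le_sqrt', one_mul]
    constructor
    · rintro ⟨_, h1, h2⟩
      zify
      constructor <;> linarith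
    · rintro ⟨h1, h2⟩
      have h3 : n ≤ Nat.sqrt (K + Y) := Nat.le_sqrt'.2 h2
      have h4 : 1 ≤ n := by
        rcases Nat.eq_zero_or_pos n with h | h
        · rw [h] at h1; simp at h1
        · exact h
      zify at h1 h2
      refine ⟨⟨h4, h3.trans hM⟩, ?_, ?_⟩ <;> linarith
  rw [hset]
  refine sum_congr rfl fun n hn => ?_
  rw [mem_Ioc, Nat.sqrt_lt'] at hn
  unfold gc gK
  have h1 : (K : ℤ) < (n : ℤ) ^ 2 := by exact_mod_cast hn.1
  rw [one_mul, abs_of_pos (by linarith)]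

lemma TC_minus (c : ℕ → ℝ) (M Y K z : ℕ) (hK : ¬ IsSquare K) (hM : Nat.sqrt K ≤ M) :
    TC c (-1) M Y (ff z) K = ∑ n ∈ Ioc (Nat.sqrt (K - Y - 1)) (Nat.sqrt K), gc c z K n := by
  unfold TC
  simp_rw [mul_ite, mul_zero]
  rw [← sum_filter]
  have hne : ∀ n : ℕ, n ^ 2 ≠ K := fun n h => hK ⟨n, by rw [← h]; ring⟩
  have hset : (Icc 1 M).filter (fun n : ℕ => 1 ≤ -1 * ((n : ℤ) ^ 2 - (K : ℤ)) ∧ -1 * ((n : ℤ) ^ 2 - (K : ℤ)) ≤ Y) =
      Ioc (Nat.sqrt (K - Y - 1)) (Nat.sqrt K) := by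
    ext n
    rw [mem_filter, mem_Icc, mem_Ioc, Nat.sqrt_lt', Nat.le_sqrt']
    constructor
    · rintro ⟨⟨h0, _⟩, h1, h2⟩
      have h3 : n ^ 2 ≤ K := by zify; linarith
      refine ⟨?_, h3⟩
      have h4 : 1 ≤ n ^ 2 := Nat.one_le_pow _ _ h0
      have h5 : K ≤ n ^ 2 + Y := by zify; linarith
      omega
    · rintro ⟨h1, h2⟩
      have h3 : n ≤ Nat.sqrt K := Nat.le_sqrt'.2 h2
      have h4 : 1 ≤ n := by
        rcases Nat.eq_zero_or_pos n with h | h
        · rw [h] at h1; simp at h1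
        · exact h
      have h5 := hne n
      have h6 : n ^ 2 + 1 ≤ K := by omega
      have h7 : K ≤ n ^ 2 + Y := by omega
      zify at h6 h7
      refine ⟨⟨h4, h3.trans hM⟩, ?_, ?_⟩ <;> linarith
  rw [hset]
  refine sum_congr rfl fun n hn => ?_
  rw [mem_Ioc, Nat.le_sqrt'] at hn
  unfold gc gK
  have h1 : (n : ℤ) ^ 2 ≤ (K : ℤ) := by exact_mod_cast hn.2
  rw [abs_of_nonpos (by linarith)]
  congr 2
  ring

lemma sum_triv (c : ℕ → ℝ) (z K a b : ℕ) (c0 : ℝ) (hab : a ≤ b) (hg : ∀ n, |gc c z K n| ≤ c0) :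
    |∑ n ∈ Ioc a b, gc c z K n| ≤ c0 * ((b : ℝ) - a) := by
  refine (abs_sum_le_sum_abs _ _).trans ((sum_le_sum fun n _ => hg n).trans (le_of_eq ?_))
  rw [sum_const, Nat.card_Ioc, nsmul_eq_mul, Nat.cast_sub hab, mul_comm]

/-- windows to the right of the square root -/
lemma plus_win (c : ℕ → ℝ) (K X z N : ℕ) (c0 γ ρ Ymin Ymax : ℝ) (hK1 : 1 ≤ K) (hKX : K ≤ X) (hγ : 2 ≤ γ) (hρ : 0 ≤ ρ)
    (hY1 : 1 ≤ Ymin) (hg : ∀ n, |gc c z K n| ≤ c0)
    (hT : ∀ j : ℕ, Ymin ≤ gr γ j → (gr γ j : ℝ) ≤ Ymax →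
      |TC c 1 (Nat.sqrt (X + gr γ j) + 1) (gr γ j) (ff z) K| ≤ gr γ j * ρ)
    (hN : Nat.sqrt K < N) (hNmax : (N : ℝ) ^ 2 ≤ Ymax) :
    |∑ n ∈ Ioc (Nat.sqrt K) N, gc c z K n| ≤
      ρ * (2 * N * ((N : ℝ) - Nat.sqrt K)) + c0 * (2 * ((N : ℝ) - Nat.sqrt K) / γ ^ 2 + 2) +
        c0 * ((2 * Ymin + 2) / Nat.sqrt K + 1) := by
  set NK := Nat.sqrt K with hNK
  have hNK1 : 1 ≤ NK := by
    rw [hNK, Nat.le_sqrt']; simpa using hK1
  have hc0 : 0 ≤ c0 := (abs_nonneg _).trans (hg 0)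
  have hNKr : (1 : ℝ) ≤ NK := by exact_mod_cast hNK1
  have hNr : (NK : ℝ) + 1 ≤ N := by exact_mod_cast hN
  have hKlt : K < N ^ 2 := Nat.sqrt_lt'.1 hN
  have hKle : NK ^ 2 ≤ K := Nat.sqrt_le' K
  have hKlt2 : K < (NK + 1) ^ 2 := Nat.lt_succ_sqrt' K
  set Y := N ^ 2 - K with hY
  have hY0 : 1 ≤ Y := by omega
  have hYr : (Y : ℝ) = (N : ℝ) ^ 2 - K := by
    rw [hY, Nat.cast_sub hKlt.le]; push_cast; ring
  have hKr : (NK : ℝ) ^ 2 ≤ K := by exact_mod_cast hKle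
  have hKr2 : (K : ℝ) < ((NK : ℝ) + 1) ^ 2 := by exact_mod_cast hKlt2
  have hYle : (Y : ℝ) ≤ 2 * N * ((N : ℝ) - NK) := by
    rw [hYr]; nlinarith
  have hG : (4 : ℝ) ≤ γ ^ 2 := by nlinarith
  obtain ⟨j, -, hj1, hj2⟩ := grid γ hγ Y hY0
  set y0 := gr γ j with hy0
  have hy0r : (y0 : ℝ) ≤ Y := by exact_mod_cast hj1
  have hpos1 : 0 ≤ c0 * ((2 * Ymin + 2) / NK + 1) := by positivity
  have hpos2 : 0 ≤ c0 * (2 * ((N : ℝ) - NK) / γ ^ 2 + 2) := by
    apply mul_nonneg hc0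
    have : 0 ≤ 2 * ((N : ℝ) - NK) / γ ^ 2 := div_nonneg (by linarith) (by positivity)
    linarith
  have hpos3 : 0 ≤ ρ * (2 * N * ((N : ℝ) - NK)) := by
    apply mul_nonneg hρ
    apply mul_nonneg (by positivity) (by linarith)
  by_cases hc : Ymin ≤ y0
  · have hy1 : (y0 : ℝ) ≤ Ymax := by
      have : (Y : ℝ) ≤ (N : ℝ) ^ 2 := by
        rw [hYr]
        have : (0 : ℝ) ≤ K := Nat.cast_nonneg _
        linarith
      linarith
    have h1 := hT j hc hy1
    rw [← hy0] at h1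
    set N0 := Nat.sqrt (K + y0) with hN0
    have hM : N0 ≤ Nat.sqrt (X + y0) + 1 := by
      have : N0 ≤ Nat.sqrt (X + y0) := Nat.sqrt_le_sqrt (by omega)
      omega
    rw [TC_plus c _ _ _ _ hM] at h1
    have hNN0 : NK ≤ N0 := Nat.sqrt_le_sqrt (by omega)
    have hN0N : N0 ≤ N := by
      have h2 : N0 ^ 2 ≤ N ^ 2 := by
        have h3 : N0 ^ 2 ≤ K + y0 := Nat.sqrt_le' _
        omega
      exact (Nat.pow_le_pow_iff_left (by norm_num)).1 h2
    rw [← sum_Ioc_consecutive _ hNN0 hN0N]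
    refine (abs_add_le _ _).trans ?_
    have h2 := sum_triv c z K N0 N c0 hN0N hg
    have h3 : (N : ℝ) - N0 ≤ 2 * ((N : ℝ) - NK) / γ ^ 2 + 2 := by
      set a : ℝ := (N : ℝ) - N0 - 1 with ha
      have h4 : (K : ℝ) + y0 < ((N0 : ℝ) + 1) ^ 2 := by
        exact_mod_cast Nat.lt_succ_sqrt' (K + y0)
      have h5 : a * (N + N0 + 1) ≤ Y / γ ^ 2 + 1 := by
        have e : a * ((N : ℝ) + N0 + 1) = (N : ℝ) ^ 2 - ((N0 : ℝ) + 1) ^ 2 := by rw [ha]; ring
        rw [e]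
        linarith
      have h6 : Y / γ ^ 2 ≤ N * (2 * ((N : ℝ) - NK) / γ ^ 2) := by
        rw [mul_div_assoc', div_le_div_iff_of_pos_right (by positivity)]
        linarith
      have hN1 : (1 : ℝ) ≤ N := by linarith
      have h7 : a ≤ 2 * ((N : ℝ) - NK) / γ ^ 2 + 1 := by
        by_contra hcon
        push Not at hcon
        have h8 : 0 ≤ 2 * ((N : ℝ) - NK) / γ ^ 2 := div_nonneg (by linarith) (by positivity)
        have h9 : 0 < a := by linarith
        have h10 : a * N ≤ a * (N + N0 + 1) := by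
          apply mul_le_mul_of_nonneg_left _ h9.le
          have : (0 : ℝ) ≤ N0 := Nat.cast_nonneg _
          linarith
        have h11 : (2 * ((N : ℝ) - NK) / γ ^ 2 + 1) * N < a * N :=
          mul_lt_mul_of_pos_right hcon (by linarith)
        have h12 : (2 * ((N : ℝ) - NK) / γ ^ 2 + 1) * N = N * (2 * ((N : ℝ) - NK) / γ ^ 2) + N := by ring
        linarith
      linarith
    have h4 : (y0 : ℝ) * ρ ≤ ρ * (2 * N * ((N : ℝ) - NK)) := by
      rw [mul_comm]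
      exact mul_le_mul_of_nonneg_left (hy0r.trans hYle) hρ
    have h5 : c0 * ((N : ℝ) - N0) ≤ c0 * (2 * ((N : ℝ) - NK) / γ ^ 2 + 2) :=
      mul_le_mul_of_nonneg_left h3 hc0
    linarith
  · push Not at hc
    have h1 := sum_triv c z K NK N c0 hN.le hg
    have h2 : (Y : ℝ) ≤ 2 * Ymin + 2 := by
      have h3 : (Y : ℝ) / γ ^ 2 ≤ Y / 2 := by
        apply div_le_div_of_nonneg_left (by positivity) (by norm_num)
        linarith
      linarith
    have h3 : (N : ℝ) - NK ≤ (2 * Ymin + 2) / NK + 1 := by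
      have h4 : ((N : ℝ) - NK - 1) * NK ≤ 2 * Ymin + 2 := by
        have h5 : ((N : ℝ) - NK - 1) * NK ≤ ((N : ℝ) - NK - 1) * (N + NK + 1) := by
          apply mul_le_mul_of_nonneg_left _ (by linarith)
          linarith
        have h6 : ((N : ℝ) - NK - 1) * (N + NK + 1) = (N : ℝ) ^ 2 - ((NK : ℝ) + 1) ^ 2 := by ring
        linarith
      have h5 : (N : ℝ) - NK - 1 ≤ (2 * Ymin + 2) / NK := by
        rw [le_div_iff₀ (by linarith)]; exact h4
      linarith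
    have h4 := mul_le_mul_of_nonneg_left h3 hc0
    linarith

/-- windows to the left of the square root -/
lemma minus_win (c : ℕ → ℝ) (K X z m : ℕ) (c0 γ ρ Ymin Ymax : ℝ) (hK1 : 1 ≤ K) (hKX : K ≤ X) (hsq : ¬ IsSquare K)
    (hγ : 2 ≤ γ) (hρ : 0 ≤ ρ) (hY1 : 1 ≤ Ymin) (hg : ∀ n, |gc c z K n| ≤ c0)
    (hT : ∀ j : ℕ, Ymin ≤ gr γ j → (gr γ j : ℝ) ≤ Ymax →
      |TC c (-1) (Nat.sqrt (X + gr γ j) + 1) (gr γ j) (ff z) K| ≤ gr γ j * ρ)
    (hm : m ≤ Nat.sqrt K) (hKmax : (K : ℝ) ≤ Ymax) :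
    |∑ n ∈ Ioc m (Nat.sqrt K), gc c z K n| ≤
      ρ * ((2 * Nat.sqrt K + 1) * ((Nat.sqrt K : ℝ) + 1 - m)) + c0 * (((Nat.sqrt K : ℝ) + 1 - m) / γ + 1) +
        c0 * ((2 * Ymin + 2) / Nat.sqrt K) := by
  set NK := Nat.sqrt K with hNK
  have hNK1 : 1 ≤ NK := by
    rw [hNK, Nat.le_sqrt']; simpa using hK1
  have hc0 : 0 ≤ c0 := (abs_nonneg _).trans (hg 0)
  have hNKr : (1 : ℝ) ≤ NK := by exact_mod_cast hNK1
  have hmr : (m : ℝ) ≤ NK := by exact_mod_cast hm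
  have hm0 : (0 : ℝ) ≤ m := Nat.cast_nonneg _
  have hKle : NK ^ 2 ≤ K := Nat.sqrt_le' K
  have hKlt2 : K < (NK + 1) ^ 2 := Nat.lt_succ_sqrt' K
  have hne : ∀ n : ℕ, n ^ 2 ≠ K := fun n h => hsq ⟨n, by rw [← h]; ring⟩
  have hmK : m ^ 2 < K := by
    have h1 : m ^ 2 ≤ NK ^ 2 := Nat.pow_le_pow_left hm 2
    have h2 := hne m
    omega
  set Y := K - m ^ 2 with hY
  have hY0 : 1 ≤ Y := by omega
  have hYr : (Y : ℝ) = K - (m : ℝ) ^ 2 := by
    rw [hY, Nat.cast_sub hmK.le]; push_cast; ring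
  have hKr : (NK : ℝ) ^ 2 ≤ K := by exact_mod_cast hKle
  have hKr2 : (K : ℝ) < ((NK : ℝ) + 1) ^ 2 := by exact_mod_cast hKlt2
  have hYb : (Y : ℝ) ≤ ((NK : ℝ) + 1 - m) * (((NK : ℝ) + 1 - m) + 2 * m) := by
    rw [hYr]; nlinarith
  have hYle : (Y : ℝ) ≤ (2 * NK + 1) * ((NK : ℝ) + 1 - m) := by
    refine hYb.trans ?_
    rw [mul_comm]
    apply mul_le_mul_of_nonneg_right _ (by linarith)
    linarith
  obtain ⟨j, -, hj1, hj2⟩ := grid γ hγ Y hY0
  set y0 := gr γ j with hy0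
  have hy0r : (y0 : ℝ) ≤ Y := by exact_mod_cast hj1
  have hγ0 : 0 < γ := by linarith
  have hpos1 : 0 ≤ c0 * ((2 * Ymin + 2) / NK) := by positivity
  have hpos2 : 0 ≤ c0 * (((NK : ℝ) + 1 - m) / γ + 1) := by
    apply mul_nonneg hc0
    have : 0 ≤ ((NK : ℝ) + 1 - m) / γ := div_nonneg (by linarith) hγ0.le
    linarith
  have hpos3 : 0 ≤ ρ * ((2 * NK + 1) * ((NK : ℝ) + 1 - m)) := by
    apply mul_nonneg hρ
    apply mul_nonneg (by positivity) (by linarith)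
  by_cases hc : Ymin ≤ y0
  · have hy1 : (y0 : ℝ) ≤ Ymax := by
      have : (Y : ℝ) ≤ K := by
        rw [hYr]
        have : (0 : ℝ) ≤ (m : ℝ) ^ 2 := by positivity
        linarith
      linarith
    have h1 := hT j hc hy1
    rw [← hy0] at h1
    have hM : NK ≤ Nat.sqrt (X + y0) + 1 := by
      have : NK ≤ Nat.sqrt (X + y0) := Nat.sqrt_le_sqrt (by omega)
      omega
    rw [TC_minus c _ _ _ _ hsq hM] at h1
    set N0 := Nat.sqrt (K - y0 - 1) with hN0
    have hN0K : N0 ≤ NK := Nat.sqrt_le_sqrt (by omega)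
    have h4 : (y0 : ℝ) * ρ ≤ ρ * ((2 * NK + 1) * ((NK : ℝ) + 1 - m)) := by
      rw [mul_comm]
      exact mul_le_mul_of_nonneg_left (hy0r.trans hYle) hρ
    have hdpos : 0 ≤ ((NK : ℝ) + 1 - m) / γ := div_nonneg (by linarith) hγ0.le
    rcases Nat.lt_or_ge N0 m with hlt | hge
    · -- `N0 + 1 = m`
      have h5 : N0 + 1 = m := by
        by_contra hcon
        have h6 : N0 + 1 < m := by omega
        have h7 : K - y0 - 1 < (N0 + 1) ^ 2 := Nat.lt_succ_sqrt' _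
        have h8 : (N0 + 1) ^ 2 < m ^ 2 := Nat.pow_lt_pow_left h6 (by norm_num)
        omega
      have h6 : ∑ n ∈ Ioc N0 NK, gc c z K n = gc c z K m + ∑ n ∈ Ioc m NK, gc c z K n := by
        rw [← h5, ← sum_Ioc_consecutive (gc c z K) (Nat.le_succ N0) (show N0 + 1 ≤ NK by omega)]
        congr 1
        rw [Nat.Ioc_succ_singleton, sum_singleton]
      rw [h6] at h1
      have h7 : |∑ n ∈ Ioc m NK, gc c z K n| ≤ |gc c z K m + ∑ n ∈ Ioc m NK, gc c z K n| + |gc c z K m| := by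
        have h8 := abs_sub (gc c z K m + ∑ n ∈ Ioc m NK, gc c z K n) (gc c z K m)
        rwa [add_sub_cancel_left] at h8
      have h8 := hg m
      have h9 : c0 * 1 ≤ c0 * (((NK : ℝ) + 1 - m) / γ + 1) :=
        mul_le_mul_of_nonneg_left (by linarith) hc0
      linarith
    · rw [← sum_Ioc_consecutive _ hge hN0K]
      refine (abs_add_le _ _).trans ?_
      have h2 := sum_triv c z K m N0 c0 hge hg
      have h3 : (N0 : ℝ) - m ≤ ((NK : ℝ) + 1 - m) / γ := by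
        rcases Nat.eq_zero_or_pos (K - y0 - 1) with h5 | h5
        · have h6 : N0 = 0 := by rw [hN0, h5]; rfl
          have h7 : m = 0 := by omega
          rw [h6, h7]
          rw [h7] at hdpos
          push_cast at hdpos ⊢
          linarith
        · have h6 : N0 ^ 2 ≤ K - y0 - 1 := Nat.sqrt_le' _
          have h7 : N0 ^ 2 + y0 + 1 ≤ K := by omega
          have h8 : (N0 : ℝ) ^ 2 + y0 + 1 ≤ K := by exact_mod_cast h7
          set a : ℝ := (N0 : ℝ) - m with ha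
          set b : ℝ := (NK : ℝ) + 1 - m with hb
          have ha0 : 0 ≤ a := by
            rw [ha, sub_nonneg]; exact_mod_cast hge
          have hb0 : 0 < b := by rw [hb]; linarith
          have h9 : a * (a + 2 * m) ≤ b * (b + 2 * m) / γ ^ 2 := by
            have e : a * (a + 2 * m) = (N0 : ℝ) ^ 2 - (m : ℝ) ^ 2 := by rw [ha]; ring
            rw [e]
            have h10 : (Y : ℝ) / γ ^ 2 ≤ b * (b + 2 * m) / γ ^ 2 :=
              div_le_div_of_nonneg_right hYb (by positivity)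
            linarith
          by_contra hcon
          push Not at hcon
          have h10 : (b / γ) ^ 2 < a ^ 2 := by
            apply pow_lt_pow_left₀ hcon (by positivity) (by norm_num)
          have h11 : b * (2 * m) / γ ^ 2 ≤ a * (2 * m) := by
            have h12 : b / γ ^ 2 ≤ b / γ := by
              apply div_le_div_of_nonneg_left hb0.le hγ0
              nlinarith
            have h13 : b * (2 * m) / γ ^ 2 = b / γ ^ 2 * (2 * m) := by ring
            rw [h13]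
            apply mul_le_mul_of_nonneg_right _ (by linarith)
            linarith
          have h12 : b * (b + 2 * m) / γ ^ 2 = (b / γ) ^ 2 + b * (2 * m) / γ ^ 2 := by
            field_simp
          have h13 : a * (a + 2 * m) = a ^ 2 + a * (2 * m) := by ring
          linarith
      have h5 : c0 * ((N0 : ℝ) - m) ≤ c0 * (((NK : ℝ) + 1 - m) / γ + 1) :=
        mul_le_mul_of_nonneg_left (by linarith) hc0
      linarith
  · push Not at hc
    have h1 := sum_triv c z K m NK c0 hm hg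
    have h2 : (Y : ℝ) ≤ 2 * Ymin + 2 := by
      have hG : (4 : ℝ) ≤ γ ^ 2 := by nlinarith
      have h3 : (Y : ℝ) / γ ^ 2 ≤ Y / 2 := by
        apply div_le_div_of_nonneg_left (by positivity) (by norm_num)
        linarith
      linarith
    have h3 : (NK : ℝ) - m ≤ (2 * Ymin + 2) / NK := by
      rw [le_div_iff₀ (by linarith)]
      have h5 : ((NK : ℝ) - m) * NK ≤ ((NK : ℝ) - m) * (NK + m) := by
        apply mul_le_mul_of_nonneg_left _ (by linarith)
        linarith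
      have h6 : ((NK : ℝ) - m) * (NK + m) = (NK : ℝ) ^ 2 - (m : ℝ) ^ 2 := by ring
      linarith
    have h4 := mul_le_mul_of_nonneg_left h3 hc0
    linarith

end Pool.Agent.N913.AW
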