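import Pool.Agent.N913.AW.A3
import Pool.Agent.TH892.SW.S9

/-!
Windows near the square root of `K`, with weights: one number `K` (after `Pool/Agent/TH892/SW/S9`).
-/

set_option autoImplicit false

namespace Pool.Agent.N913.AW

open Finset Filter Topology
open Pool.Agent.TH892.SW (ff gK gr)

lemma E_win (c : ℕ → ℝ) (K X z n₁ : ℕ) (c0 γ ρ Ymin Ymax S Lc : ℝ) (hK1 : 1 ≤ K) (hKX : K ≤ X) (hsq : ¬ IsSquare K)
    (hγ : 2 ≤ γ) (hρ : 0 ≤ ρ) (hY1 : 1 ≤ Ymin) (hg : ∀ n, |gc c z K n| ≤ c0)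
    (hT : ∀ s : ℤ, (s = 1 ∨ s = -1) → ∀ j : ℕ, Ymin ≤ gr γ j → (gr γ j : ℝ) ≤ Ymax →
      |TC c s (Nat.sqrt (X + gr γ j) + 1) (gr γ j) (ff z) K| ≤ gr γ j * ρ)
    (hS : 1 ≤ S) (hLc : 1 ≤ Lc) (hNKS : (Nat.sqrt K : ℝ) ≤ S) (hnS : (n₁ : ℝ) ≤ S * Lc)
    (hSY : (S * Lc) ^ 2 ≤ Ymax) (hKmax : (K : ℝ) ≤ Ymax) :
    |∑ n ∈ Ioc 0 n₁, gc c z K n - ∑ n ∈ Ioc 0 (Nat.sqrt K), gc c z K n| ≤
      ρ * (3 * (S * Lc)) * (|(n₁ : ℝ) - Nat.sqrt K| + 1) + c0 * (2 * (|(n₁ : ℝ) - Nat.sqrt K| + 1) / γ + 3) +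
        c0 * ((2 * Ymin + 2) / Nat.sqrt K) := by
  have hc0 : 0 ≤ c0 := (abs_nonneg _).trans (hg 0)
  have hγ0 : 0 < γ := by linarith
  rcases Nat.lt_or_ge (Nat.sqrt K) n₁ with hlt | hge
  · have h1 := plus_win c K X z n₁ c0 γ ρ Ymin Ymax hK1 hKX hγ hρ hY1 hg (hT 1 (Or.inl rfl)) hlt
      ((pow_le_pow_left₀ (Nat.cast_nonneg _) hnS 2).trans hSY)
    rw [← sum_Ioc_consecutive (gc c z K) (Nat.zero_le _) hlt.le, add_sub_cancel_left]
    have hd : (0 : ℝ) ≤ (n₁ : ℝ) - Nat.sqrt K := by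
      rw [sub_nonneg]; exact_mod_cast hlt.le
    rw [abs_of_nonneg hd]
    set d : ℝ := (n₁ : ℝ) - Nat.sqrt K with hdd
    refine h1.trans ?_
    have h2 : ρ * (2 * n₁ * d) ≤ ρ * (3 * (S * Lc)) * (d + 1) := by
      rw [mul_assoc ρ]
      apply mul_le_mul_of_nonneg_left _ hρ
      have h0 : 0 ≤ S * Lc := by positivity
      calc 2 * (n₁ : ℝ) * d ≤ 2 * (S * Lc) * d := by gcongr
        _ ≤ 3 * (S * Lc) * (d + 1) := by nlinarith
    have h3 : 2 * d / γ ^ 2 ≤ 2 * (d + 1) / γ := by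
      rw [div_le_div_iff₀ (by positivity) hγ0]
      have h4 : 2 * d ≤ 2 * (d + 1) * γ := by nlinarith
      calc 2 * d * γ ≤ 2 * (d + 1) * γ * γ := mul_le_mul_of_nonneg_right h4 hγ0.le
        _ = 2 * (d + 1) * γ ^ 2 := by ring
    have h4 : c0 * (2 * d / γ ^ 2 + 2) + c0 * ((2 * Ymin + 2) / (Nat.sqrt K : ℝ) + 1) ≤
        c0 * (2 * (d + 1) / γ + 3) + c0 * ((2 * Ymin + 2) / (Nat.sqrt K : ℝ)) := by
      have := mul_le_mul_of_nonneg_left h3 hc0
      linarith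
    linarith
  · have h1 := minus_win c K X z n₁ c0 γ ρ Ymin Ymax hK1 hKX hsq hγ hρ hY1 hg (hT (-1) (Or.inr rfl)) hge hKmax
    rw [← sum_Ioc_consecutive (gc c z K) (Nat.zero_le _) hge]
    have e : ∑ n ∈ Ioc 0 n₁, gc c z K n - (∑ n ∈ Ioc 0 n₁, gc c z K n + ∑ n ∈ Ioc n₁ (Nat.sqrt K), gc c z K n) =
        -∑ n ∈ Ioc n₁ (Nat.sqrt K), gc c z K n := by ring
    rw [e, abs_neg]
    have hd : (n₁ : ℝ) - Nat.sqrt K ≤ 0 := by
      rw [sub_nonpos]; exact_mod_cast hge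
    rw [abs_of_nonpos hd]
    set d : ℝ := -((n₁ : ℝ) - Nat.sqrt K) with hdd
    have e2 : (Nat.sqrt K : ℝ) + 1 - n₁ = d + 1 := by rw [hdd]; ring
    rw [e2] at h1
    have hd0 : 0 ≤ d := by rw [hdd]; linarith
    refine h1.trans ?_
    have hSL : S ≤ S * Lc := by nlinarith
    have h2 : ρ * ((2 * (Nat.sqrt K : ℝ) + 1) * (d + 1)) ≤ ρ * (3 * (S * Lc)) * (d + 1) := by
      rw [mul_assoc ρ]
      apply mul_le_mul_of_nonneg_left _ hρ
      apply mul_le_mul_of_nonneg_right _ (by linarith)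
      linarith
    have h3 : (d + 1) / γ ≤ 2 * (d + 1) / γ := by
      apply div_le_div_of_nonneg_right _ hγ0.le
      linarith
    have h4 := mul_le_mul_of_nonneg_left h3 hc0
    have h5 : c0 * ((d + 1) / γ + 1) ≤ c0 * (2 * (d + 1) / γ + 3) := by
      rw [mul_add, mul_add]
      linarith
    linarith

/-- one number `K`: the difference function in a window -/
lemma window_K (c : ℕ → ℝ) (U C B : ℕ) (X K z m N : ℕ) (L S : ℝ) (hL : 10000 ≤ L) (hS1 : 1 ≤ S) (hSS : S * S = X)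
    (hSbig : L ^ (2 * C + U + 2) ≤ S) (hK1 : 1 ≤ K) (hKX : K ≤ X) (hKlow : X / L ^ (U + 1) < K)
    (hsq : ¬ IsSquare K) (hgb : ∀ n, |gc c z K n| ≤ 3 * L)
    (hTj : ∀ s : ℤ, (s = 1 ∨ s = -1) → ∀ j : ℕ, S * L ^ B ≤ gr (L ^ (C + U + 10)) j →
      (gr (L ^ (C + U + 10)) j : ℝ) ≤ X * L ^ (2 * C) →
      |TC c s (Nat.sqrt (X + gr (L ^ (C + U + 10)) j) + 1) (gr (L ^ (C + U + 10)) j) (ff z) K| ≤
        gr (L ^ (C + U + 10)) j * (1 / (S * L ^ (2 * C + U + 9))))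
    (hmN : m < N) (hNS : (N : ℝ) ≤ S * L ^ C) (hmK : |(m : ℝ) - √K| ≤ ((N : ℝ) - m) * L ^ C)
    (hBf : L ^ (B + 2 * U + 14) ≤ (N : ℝ) - m) :
    |∑ i ∈ Ioc m N, gc c z K i| ≤ ((N : ℝ) - m) / L ^ (U + 5) := by
  have hL0 : 0 < L := by linarith
  have hL1 : 1 ≤ L := by linarith
  have hLp0 : ∀ n : ℕ, 0 < L ^ n := fun n => by positivity
  have hLp : ∀ n : ℕ, 1 ≤ L ^ n := fun n => one_le_pow₀ hL1
  have hS0 : 0 < S := by linarith
  have hX0' : (0 : ℝ) < X := by rw [← hSS]; positivity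
  have hSX : √(X : ℝ) = S := by rw [← hSS]; exact Real.sqrt_mul_self hS0.le
  have hKr : (1 : ℝ) ≤ K := by exact_mod_cast hK1
  have hKXr : (K : ℝ) ≤ X := by exact_mod_cast hKX
  obtain ⟨NK, hNK⟩ : ∃ NK, NK = Nat.sqrt K := ⟨_, rfl⟩
  have hNK1 : 1 ≤ NK := by rw [hNK, Nat.le_sqrt']; simpa using hK1
  have hNKsq : (NK : ℝ) ≤ √(K : ℝ) := by
    apply Real.le_sqrt_of_sq_le
    rw [hNK]
    exact_mod_cast Nat.sqrt_le' K
  have hNKsq2 : √(K : ℝ) ≤ NK + 1 := by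
    rw [Real.sqrt_le_left (by positivity), hNK]
    exact_mod_cast (Nat.lt_succ_sqrt' K).le
  have hNKS : (NK : ℝ) ≤ S := by
    rw [← hSX]; exact hNKsq.trans (Real.sqrt_le_sqrt hKXr)
  have hNKlow : S / L ^ (U + 1) ≤ NK := by
    have h1 : (2 * S / L ^ (U + 1)) ^ 2 ≤ K := by
      calc (2 * S / L ^ (U + 1)) ^ 2 = 4 * (S * S) / (L ^ (U + 1) * L ^ (U + 1)) := by ring
        _ = X / L ^ (U + 1) * (4 / L ^ (U + 1)) := by rw [hSS]; field_simp
        _ ≤ X / L ^ (U + 1) * 1 := by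
            apply mul_le_mul_of_nonneg_left _ (by positivity)
            rw [div_le_one (hLp0 _)]
            have : L ≤ L ^ (U + 1) := le_self_pow₀ hL1 (by omega)
            linarith
        _ ≤ K := by rw [mul_one]; exact hKlow.le
    have h2 : 2 * S / L ^ (U + 1) ≤ √(K : ℝ) := Real.le_sqrt_of_sq_le h1
    have h3 : 1 ≤ S / L ^ (U + 1) := by
      rw [one_le_div (hLp0 _)]
      exact (pow_le_pow_right₀ hL1 (by omega)).trans hSbig
    have h4 : 2 * S / L ^ (U + 1) = S / L ^ (U + 1) + S / L ^ (U + 1) := by ring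
    linarith
  have hYmin1 : 1 ≤ S * L ^ B := one_le_mul_of_one_le_of_one_le hS1 (hLp B)
  have hYm : (2 * (S * L ^ B) + 2) / NK ≤ 4 * L ^ (B + U + 1) := by
    have h1 : (0 : ℝ) < NK := by exact_mod_cast hNK1
    rw [div_le_iff₀ h1]
    calc 2 * (S * L ^ B) + 2 ≤ 4 * (S * L ^ B) := by linarith
      _ = 4 * L ^ (B + U + 1) * (S / L ^ (U + 1)) := by
          rw [show B + U + 1 = B + (U + 1) by ring, pow_add]
          have := (hLp0 (U + 1)).ne'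
          field_simp
      _ ≤ 4 * L ^ (B + U + 1) * NK := mul_le_mul_of_nonneg_left hNKlow (by positivity)
  have hSY : (S * L ^ C) ^ 2 ≤ X * L ^ (2 * C) := by
    rw [mul_pow, sq S, hSS, ← pow_mul, mul_comm C 2]
  have hKYm : (K : ℝ) ≤ X * L ^ (2 * C) := by
    have := mul_le_mul_of_nonneg_left (hLp (2 * C)) hX0'.le
    linarith
  have hγ2 : 2 ≤ L ^ (C + U + 10) := by
    have : L ≤ L ^ (C + U + 10) := le_self_pow₀ hL1 (by omega)
    linarith
  have hEw : ∀ n₁ : ℕ, (n₁ : ℝ) ≤ S * L ^ C →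
      |∑ n ∈ Ioc 0 n₁, gc c z K n - ∑ n ∈ Ioc 0 NK, gc c z K n| ≤
      (|(n₁ : ℝ) - NK| + 1) / L ^ (C + U + 8) + L ^ (B + U + 3) := by
    intro n₁ hn₁
    have h1 := E_win c K X z n₁ (3 * L) (L ^ (C + U + 10)) (1 / (S * L ^ (2 * C + U + 9))) (S * L ^ B)
      (X * L ^ (2 * C)) S (L ^ C) hK1 hKX hsq hγ2 (by positivity) hYmin1 hgb hTj
      hS1 (hLp C) (by rw [← hNK]; exact hNKS) hn₁ hSY hKYm
    rw [← hNK] at h1
    refine h1.trans ?_
    generalize hd : |(n₁ : ℝ) - NK| + 1 = d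
    have hd0 : 0 ≤ d := by rw [← hd]; positivity
    have h2 : 1 / (S * L ^ (2 * C + U + 9)) * (3 * (S * L ^ C)) * d = d * (3 / L ^ (C + U + 9)) := by
      rw [show 2 * C + U + 9 = C + (C + U + 9) by ring, pow_add L C]
      have := (hLp0 C).ne'
      field_simp
    have h3 : 3 * L * (2 * d / L ^ (C + U + 10) + 3) = d * (6 / L ^ (C + U + 9)) + 9 * L := by
      rw [show C + U + 10 = (C + U + 9) + 1 by ring, pow_succ L (C + U + 9)]
      have := (hLp0 (C + U + 9)).ne'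
      field_simp
      ring
    have h4 : 3 * L * ((2 * (S * L ^ B) + 2) / NK) ≤ 3 * L * (4 * L ^ (B + U + 1)) :=
      mul_le_mul_of_nonneg_left hYm (by positivity)
    have h5 : 9 * L + 3 * L * (4 * L ^ (B + U + 1)) ≤ L ^ (B + U + 3) := by
      have e : L ^ (B + U + 3) = L ^ (B + U + 1) * L * L := by ring
      rw [e]
      have h6 := hLp (B + U + 1)
      have h7 : L ≤ L ^ (B + U + 1) * L := by nlinarith
      have h8 : 21 * (L ^ (B + U + 1) * L) ≤ L * (L ^ (B + U + 1) * L) := by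
        apply mul_le_mul_of_nonneg_right (by linarith) (by positivity)
      linarith
    have h6 : d * (3 / L ^ (C + U + 9)) + d * (6 / L ^ (C + U + 9)) ≤ d / L ^ (C + U + 8) := by
      rw [show C + U + 9 = (C + U + 8) + 1 by ring, pow_succ L (C + U + 8)]
      have e : d * (3 / (L ^ (C + U + 8) * L)) + d * (6 / (L ^ (C + U + 8) * L)) = d / L ^ (C + U + 8) * (9 / L) := by
        have := (hLp0 (C + U + 8)).ne'
        field_simp
        norm_num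
      rw [e]
      calc d / L ^ (C + U + 8) * (9 / L) ≤ d / L ^ (C + U + 8) * 1 := by
            apply mul_le_mul_of_nonneg_left _ (by positivity)
            rw [div_le_one hL0]; linarith
        _ = _ := mul_one _
    rw [h2, h3]
    linarith
  -- the window
  generalize hH : (N : ℝ) - m = H at *
  have hNmr : (1 : ℝ) ≤ H := by
    have : ((m : ℝ) + 1) ≤ N := by exact_mod_cast hmN
    linarith
  have hmS : (m : ℝ) ≤ S * L ^ C := by linarith
  have hLC := hLp C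
  have hdm : |(m : ℝ) - NK| ≤ H * L ^ C + 1 := by
    have h1 : |(m : ℝ) - NK| ≤ |(m : ℝ) - √K| + |√(K : ℝ) - NK| := abs_sub_le _ _ _
    have h2 : |√(K : ℝ) - NK| ≤ 1 := by rw [abs_le]; constructor <;> linarith
    linarith
  have hdN : |(N : ℝ) - NK| ≤ H * L ^ C + 1 + H := by
    have h1 : |(N : ℝ) - NK| ≤ |(N : ℝ) - m| + |(m : ℝ) - NK| := abs_sub_le _ _ _
    have h2 : |(N : ℝ) - m| = H := by rw [hH]; exact abs_of_nonneg (by linarith)
    linarith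
  have h1 := hEw N hNS
  have h2 := hEw m hmS
  have e : ∑ i ∈ Ioc m N, gc c z K i = (∑ n ∈ Ioc 0 N, gc c z K n - ∑ n ∈ Ioc 0 NK, gc c z K n) -
      (∑ n ∈ Ioc 0 m, gc c z K n - ∑ n ∈ Ioc 0 NK, gc c z K n) := by
    rw [← sum_Ioc_consecutive (gc c z K) (Nat.zero_le m) hmN.le]
    ring
  rw [e]
  refine (abs_sub _ _).trans ?_
  have h3 : (|(N : ℝ) - NK| + 1) / L ^ (C + U + 8) + (|(m : ℝ) - NK| + 1) / L ^ (C + U + 8) ≤
      (7 * H * L ^ C) / L ^ (C + U + 8) := by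
    rw [← add_div]
    apply div_le_div_of_nonneg_right _ (hLp0 (C + U + 8)).le
    have h4 : H ≤ H * L ^ C := by nlinarith
    have h5 : 1 ≤ H * L ^ C := by linarith
    linarith
  have h4 : (7 * H * L ^ C) / L ^ (C + U + 8) ≤ H / L ^ (U + 5) * (1 / 2) := by
    have e2 : L ^ (C + U + 8) = L ^ C * L ^ (U + 5) * (L * L * L) := by ring
    rw [e2]
    have e3 : 7 * H * L ^ C / (L ^ C * L ^ (U + 5) * (L * L * L)) = H / L ^ (U + 5) * (7 / (L * L * L)) := by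
      have := (hLp0 C).ne'
      have := (hLp0 (U + 5)).ne'
      field_simp
    rw [e3]
    apply mul_le_mul_of_nonneg_left _ (by positivity)
    rw [div_le_div_iff₀ (by positivity) (by norm_num)]
    have h5 : 1 ≤ L * L := by nlinarith
    nlinarith
  have h5 : 2 * L ^ (B + U + 3) ≤ H / L ^ (U + 5) * (1 / 2) := by
    rw [mul_one_div, div_div, le_div_iff₀ (by positivity)]
    calc 2 * L ^ (B + U + 3) * (L ^ (U + 5) * 2) = 4 * L ^ (B + 2 * U + 8) := by ring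
      _ ≤ L * L ^ (B + 2 * U + 8) := by
          apply mul_le_mul_of_nonneg_right (by linarith) (hLp0 _).le
      _ = L ^ (B + 2 * U + 9) := by ring
      _ ≤ L ^ (B + 2 * U + 14) := pow_le_pow_right₀ hL1 (by omega)
      _ ≤ H := hBf
  linarith

end Pool.Agent.N913.AW
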