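import Pool.Agent.N913.AW.A2
import Pool.Agent.N913.AW.A4
import Pool.Agent.TH892.SW.S10

/-!
All windows, for all but few `K`, with weights: the exceptional set (after `Pool/Agent/TH892/SW/S10`).
-/

set_option autoImplicit false

namespace Pool.Agent.N913.AW

open Finset Filter Topology
open Pool.Agent.TH892.SW (ff gK gr)

open Classical in
/-- the exceptional set for the grid -/
lemma bad_grid (c : ℕ → ℝ) (X g U C B U1 z : ℕ) (L S : ℝ) (hL : 10000 ≤ L) (hS0 : 0 < S)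
    (hTX : ∀ s : ℤ, (s = 1 ∨ s = -1) → ∀ Y : ℕ, S * L ^ B ≤ Y → (Y : ℝ) ≤ X * L ^ (2 * C) →
      (((Icc 1 X).filter (fun K : ℕ => (Y : ℝ) / (S * L ^ U1) <
        |TC c s (Nat.sqrt (X + Y) + 1) Y (ff z) K|)).card : ℝ) ≤ X / L ^ (U + 2 * g + 3))
    (hX2 : X * L ^ (2 * C) + 1 ≤ (X : ℝ) ^ 2) (hX0 : (0 : ℝ) < X) (hLX : L = Real.log X) :
    ∃ Bt : Finset ℕ, Bt ⊆ Icc 1 X ∧ (#Bt : ℝ) ≤ X / L ^ (U + 1) ∧ ∀ K ∈ Icc 1 X, K ∉ Bt →
      ∀ s : ℤ, (s = 1 ∨ s = -1) → ∀ j : ℕ, S * L ^ B ≤ gr (L ^ g) j → (gr (L ^ g) j : ℝ) ≤ X * L ^ (2 * C) →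
        |TC c s (Nat.sqrt (X + gr (L ^ g) j) + 1) (gr (L ^ g) j) (ff z) K| ≤ gr (L ^ g) j * (1 / (S * L ^ U1)) := by
  have hL0 : 0 < L := by linarith
  have hL1 : 1 ≤ L := by linarith
  have hLp0 : ∀ n : ℕ, 0 < L ^ n := fun n => by positivity
  obtain ⟨J, hJ⟩ : ∃ J : ℕ, J = ⌊2 * (L ^ g) ^ 2 * L⌋₊ := ⟨_, rfl⟩
  obtain ⟨T0, hT0⟩ : ∃ T0, T0 = (({1, -1} : Finset ℤ) ×ˢ range (J + 1)).filter (fun p : ℤ × ℕ =>
    S * L ^ B ≤ gr (L ^ g) p.2 ∧ (gr (L ^ g) p.2 : ℝ) ≤ X * L ^ (2 * C)) := ⟨_, rfl⟩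
  refine ⟨T0.biUnion (fun p => (Icc 1 X).filter (fun K : ℕ => ((gr (L ^ g) p.2 : ℕ) : ℝ) / (S * L ^ U1) <
      |TC c p.1 (Nat.sqrt (X + gr (L ^ g) p.2) + 1) (gr (L ^ g) p.2) (ff z) K|)), ?_, ?_, ?_⟩
  · exact biUnion_subset.2 fun p _ => filter_subset _ _
  · have h2 : (#T0 : ℝ) ≤ 2 * (2 * (L ^ g) ^ 2 * L + 1) := by
      have h3 : #T0 ≤ 2 * (J + 1) := by
        rw [hT0]
        refine (card_filter_le _ _).trans ?_
        rw [card_product, card_range, show #({1, -1} : Finset ℤ) = 2 from rfl]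
      calc (#T0 : ℝ) ≤ 2 * ((J : ℝ) + 1) := by exact_mod_cast h3
        _ ≤ _ := by
            have : (J : ℝ) ≤ 2 * (L ^ g) ^ 2 * L := by rw [hJ]; exact Nat.floor_le (by positivity)
            linarith
    have h1 : (#(T0.biUnion (fun p => (Icc 1 X).filter (fun K : ℕ => ((gr (L ^ g) p.2 : ℕ) : ℝ) / (S * L ^ U1) <
      |TC c p.1 (Nat.sqrt (X + gr (L ^ g) p.2) + 1) (gr (L ^ g) p.2) (ff z) K|))) : ℝ) ≤
        (#T0 : ℝ) * (X / L ^ (U + 2 * g + 3)) := by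
      rw [← nsmul_eq_mul, ← sum_const]
      refine le_trans (Nat.cast_le.2 card_biUnion_le) ?_
      push_cast
      refine sum_le_sum fun p hp => ?_
      rw [hT0, mem_filter, mem_product, mem_insert, mem_singleton] at hp
      exact hTX p.1 hp.1.1 (gr (L ^ g) p.2) hp.2.1 hp.2.2
    refine h1.trans ?_
    calc (#T0 : ℝ) * (X / L ^ (U + 2 * g + 3)) ≤ (2 * (2 * (L ^ g) ^ 2 * L + 1)) * (X / L ^ (U + 2 * g + 3)) :=
          mul_le_mul_of_nonneg_right h2 (by positivity)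
      _ ≤ (L ^ (2 * g + 2)) * (X / L ^ (U + 2 * g + 3)) := by
          apply mul_le_mul_of_nonneg_right _ (by positivity)
          have h3 : L ^ (2 * g + 2) = (L ^ g) ^ 2 * L * L := by ring
          rw [h3]
          have h4 : 1 ≤ (L ^ g) ^ 2 * L := by
            have : 1 ≤ (L ^ g) ^ 2 := one_le_pow₀ (one_le_pow₀ hL1)
            nlinarith
          nlinarith
      _ = X / L ^ (U + 1) := by
          have e : L ^ (U + 2 * g + 3) = L ^ (2 * g + 2) * L ^ (U + 1) := by ring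
          rw [e]
          have h5 := (hLp0 (2 * g + 2)).ne'
          have h6 := (hLp0 (U + 1)).ne'
          field_simp
  · intro K hK hKB s hs j hj1 hj2
    by_contra hcon
    push Not at hcon
    apply hKB
    rw [mem_biUnion]
    refine ⟨(s, j), ?_, ?_⟩
    · rw [hT0, mem_filter, mem_product, mem_insert, mem_singleton, mem_range]
      refine ⟨⟨hs, ?_⟩, hj1, hj2⟩
      show j < J + 1
      rw [Nat.lt_succ_iff, hJ]
      apply Nat.le_floor
      have h1 : Real.exp ((j : ℝ) / (L ^ g) ^ 2) < gr (L ^ g) j + 1 := Nat.lt_floor_add_one _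
      have h2 : Real.exp ((j : ℝ) / (L ^ g) ^ 2) ≤ (X : ℝ) ^ 2 := by linarith
      rw [← Real.le_log_iff_exp_le (by positivity), Real.log_pow, ← hLX] at h2
      push_cast at h2
      rw [div_le_iff₀ (by positivity)] at h2
      linarith
    · rw [mem_filter]
      refine ⟨hK, ?_⟩
      show ((gr (L ^ g) j : ℕ) : ℝ) / (S * L ^ U1) < _
      rw [mul_one_div] at hcon
      exact hcon

end Pool.Agent.N913.AW
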