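import Pool.Agent.N913.AW.A5

/-!
All windows near the square root of `K`, for all but few `K`, for a family of weights whose number
is bounded by a power of the logarithm.
-/

set_option autoImplicit false

namespace Pool.Agent.N913.AW

open Finset Filter Topology
open Pool.Agent.TH892.SW (ff gK gr vn HP near_sq hK_most sq_ff HP_ge Vz_pos)
open Pool.Agent.H373R2.T7 (pz Vz lamz mem_pz Vz_ge Vz_inv_small)
open Pool.Agent.H442R2.EHI (evt_log_pow evt_log_ge)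

theorem coreF (U C V : ℕ) : ∃ Bf E1 : ℕ, ∀ E : ℕ, E1 ≤ E → ∃ X0 : ℕ, ∀ X : ℕ, X0 ≤ X →
    ∀ F : Finset (ℕ → ℝ), (#F : ℝ) ≤ Real.log X ^ V → (∀ c ∈ F, ∀ n, |c n| ≤ 1) →
    ∃ Bad : Finset ℕ, Bad ⊆ Icc 1 X ∧
    (#Bad : ℝ) ≤ X / Real.log X ^ U ∧ ∀ K ∈ Icc 1 X, K ∉ Bad → (∀ i, 2 ≤ vn K i) ∧
    X / Real.log X ^ (U + 1) < K ∧
    (∃ h : ℝ, 0 < h ∧ Tendsto (fun N => HP K N) atTop (𝓝 h) ∧
      |HP K ⌊Real.log X ^ E⌋₊ - h| ≤ 1 / Real.log X ^ (U + 1) * h) ∧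
    ∀ c ∈ F, ∀ m N : ℕ, m < N → (N : ℝ) ≤ √X * Real.log X ^ C →
      |(m : ℝ) - √K| ≤ ((N : ℝ) - m) * Real.log X ^ C →
      Real.log X ^ Bf ≤ (N : ℝ) - m →
      |∑ i ∈ Ioc m N, c i * gK ⌊Real.log X ^ E⌋₊ K i| ≤ ((N : ℝ) - m) / Real.log X ^ (U + 5) := by
  classical
  obtain ⟨B, E1, hTT⟩ := TC_most (2 * C + U + 9) ((U + V + 1) + 2 * (C + U + 10) + 3) (2 * C)
  obtain ⟨E2, hKm⟩ := hK_most (U + 1) (U + 1)
  refine ⟨B + 2 * U + 14, max E1 E2 + 1, fun E hE => ?_⟩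
  obtain ⟨X1, hX1⟩ := hTT E (by omega)
  obtain ⟨X2, hX2⟩ := hKm E (by omega)
  obtain ⟨X3, hX3⟩ := sq_ff E
  have hev : ∀ᶠ X : ℕ in atTop, (10000 : ℝ) ≤ Real.log X ∧ Real.log X ^ (2 * C + U + 2) ≤ (X : ℝ) ^ (1 / 2 : ℝ) := by
    filter_upwards [evt_log_ge 10000, evt_log_pow (2 * C + U + 2) (1 / 2) (by norm_num)] with X h1 h2
    exact ⟨h1, h2⟩
  obtain ⟨X5, hX5⟩ := eventually_atTop.1 hev
  refine ⟨max (max (max X1 X2) X3) (max X5 1), fun X hX F hFc hF1 => ?_⟩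
  have g1 : X1 ≤ X := le_trans (le_trans (le_trans (le_max_left _ _) (le_max_left _ _)) (le_max_left _ _)) hX
  have g2 : X2 ≤ X := le_trans (le_trans (le_trans (le_max_right _ _) (le_max_left _ _)) (le_max_left _ _)) hX
  have g3 : X3 ≤ X := le_trans (le_trans (le_max_right _ _) (le_max_left _ _)) hX
  have g5 : X5 ≤ X := le_trans (le_trans (le_max_left _ _) (le_max_right _ _)) hX
  have g6 : 1 ≤ X := le_trans (le_trans (le_max_right _ _) (le_max_right _ _)) hX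
  obtain ⟨hL, hLS⟩ := hX5 X g5
  rw [← Real.sqrt_eq_rpow] at hLS
  obtain ⟨Bk, hBk, hKgood⟩ := hX2 X g2
  have hTX := hX1 X g1
  have hff' := hX3 X g3
  clear hTT hKm hX1 hX2 hX3 hX5 hev hX g1 g2 g3 g5
  obtain ⟨L, hLd⟩ : ∃ L, L = Real.log X := ⟨_, rfl⟩
  rw [← hLd] at hL hLS hBk hKgood hTX hff' hFc ⊢
  obtain ⟨S, hS⟩ : ∃ S, S = √(X : ℝ) := ⟨_, rfl⟩
  rw [← hS] at hLS hTX ⊢
  obtain ⟨z, hz⟩ : ∃ z, z = ⌊L ^ E⌋₊ := ⟨_, rfl⟩
  rw [← hz] at hKgood hTX ⊢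
  have hL0 : 0 < L := by linarith
  have hL1 : 1 ≤ L := by linarith
  have hLp0 : ∀ n : ℕ, 0 < L ^ n := fun n => by positivity
  have hLp : ∀ n : ℕ, 1 ≤ L ^ n := fun n => one_le_pow₀ hL1
  have hXr : (1 : ℝ) ≤ X := by exact_mod_cast g6
  have hX0' : (0 : ℝ) < X := by linarith
  have hSS : S * S = X := by rw [hS]; exact Real.mul_self_sqrt hX0'.le
  have hS1 : 1 ≤ S := by rw [hS]; exact Real.one_le_sqrt.2 hXr
  have hS0 : 0 < S := by linarith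
  have hzle : (z : ℝ) ≤ L ^ E := by rw [hz]; exact Nat.floor_le (by positivity)
  have hLE : L ≤ L ^ E := le_self_pow₀ hL1 (by omega)
  have hzge : L ^ E - 1 ≤ z := by
    have := Nat.lt_floor_add_one (L ^ E)
    rw [← hz] at this
    linarith
  have hz1 : 1 ≤ z := by
    have : (1 : ℝ) ≤ z := by linarith
    exact_mod_cast this
  obtain ⟨hffb, -⟩ := hff' z hz1 hzle
  have hX2' : X * L ^ (2 * C) + 1 ≤ (X : ℝ) ^ 2 := by
    have h1 : L ^ (2 * C) * 2 ≤ S := by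
      calc L ^ (2 * C) * 2 ≤ L ^ (2 * C) * L ^ (U + 2) := by
            apply mul_le_mul_of_nonneg_left _ (hLp0 _).le
            have : L ≤ L ^ (U + 2) := le_self_pow₀ hL1 (by omega)
            linarith
        _ = L ^ (2 * C + U + 2) := by rw [← pow_add]; ring_nf
        _ ≤ S := hLS
    have h2 : S ≤ X := by nlinarith
    calc X * L ^ (2 * C) + 1 ≤ X * L ^ (2 * C) + X * L ^ (2 * C) := by
          have := one_le_mul_of_one_le_of_one_le hXr (hLp (2 * C))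
          linarith
      _ = X * (L ^ (2 * C) * 2) := by ring
      _ ≤ X * X := by
          apply mul_le_mul_of_nonneg_left _ hX0'.le
          linarith
      _ = (X : ℝ) ^ 2 := by ring
  have hgrid : ∀ c : ℕ → ℝ, ∃ Bt : Finset ℕ, c ∈ F → (Bt ⊆ Icc 1 X ∧ (#Bt : ℝ) ≤ X / L ^ ((U + V + 1) + 1) ∧
      ∀ K ∈ Icc 1 X, K ∉ Bt →
      ∀ s : ℤ, (s = 1 ∨ s = -1) → ∀ j : ℕ, S * L ^ B ≤ gr (L ^ (C + U + 10)) j →
        (gr (L ^ (C + U + 10)) j : ℝ) ≤ X * L ^ (2 * C) →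
        |TC c s (Nat.sqrt (X + gr (L ^ (C + U + 10)) j) + 1) (gr (L ^ (C + U + 10)) j) (ff z) K| ≤
          gr (L ^ (C + U + 10)) j * (1 / (S * L ^ (2 * C + U + 9)))) := by
    intro c
    by_cases hcF : c ∈ F
    · obtain ⟨Bt, h1, h2, h3⟩ := bad_grid c X (C + U + 10) (U + V + 1) C B (2 * C + U + 9) z L S hL hS0
        (fun s hs Y hY1 hY2 => hTX c (hF1 c hcF) s hs Y hY1 hY2) hX2' hX0' hLd
      exact ⟨Bt, fun _ => ⟨h1, h2, h3⟩⟩
    · exact ⟨∅, fun h => absurd h hcF⟩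
  choose Bt hBt using hgrid
  obtain ⟨Bs, hBs⟩ : ∃ Bs, Bs = (Icc 1 X).filter (fun K : ℕ => (K : ℝ) ≤ X / L ^ (U + 1)) := ⟨_, rfl⟩
  obtain ⟨Bn, hBn⟩ : ∃ Bn, Bn = (Icc 1 X).filter (fun K : ℕ => ∃ n : ℕ, vn K n ≤ 1) := ⟨_, rfl⟩
  have hBsc : (#Bs : ℝ) ≤ X / L ^ (U + 1) := by
    have h1 : Bs ⊆ Icc 1 ⌊(X : ℝ) / L ^ (U + 1)⌋₊ := by
      intro K hK
      rw [hBs, mem_filter, mem_Icc] at hK
      rw [mem_Icc]
      exact ⟨hK.1.1, Nat.le_floor hK.2⟩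
    have h2 := card_le_card h1
    rw [Nat.card_Icc, Nat.add_sub_cancel] at h2
    calc (#Bs : ℝ) ≤ (⌊(X : ℝ) / L ^ (U + 1)⌋₊ : ℝ) := by exact_mod_cast h2
      _ ≤ _ := Nat.floor_le (by positivity)
  have hBnc : (#Bn : ℝ) ≤ X / L ^ (U + 1) := by
    rw [hBn]
    refine (near_sq X).trans ?_
    have h1 : ((Nat.sqrt X : ℕ) : ℝ) ≤ S := by
      rw [hS]
      apply Real.le_sqrt_of_sq_le
      exact_mod_cast Nat.sqrt_le' X
    rw [le_div_iff₀ (hLp0 _), ← hSS]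
    calc 3 * (((Nat.sqrt X : ℕ) : ℝ) + 3) * L ^ (U + 1) ≤ 3 * (S + 3) * L ^ (U + 1) := by gcongr
      _ ≤ (L * S) * L ^ (U + 1) := by
          apply mul_le_mul_of_nonneg_right _ (hLp0 _).le
          nlinarith
      _ = S * L ^ (U + 2) := by ring
      _ ≤ S * S := by
          apply mul_le_mul_of_nonneg_left _ hS0.le
          exact (pow_le_pow_right₀ hL1 (by omega)).trans hLS
  obtain ⟨BF, hBF⟩ : ∃ BF, BF = F.biUnion (fun c => Bt c) := ⟨_, rfl⟩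
  have hBFc : (#BF : ℝ) ≤ X / L ^ (U + 1) := by
    have h1 : (#BF : ℝ) ≤ ∑ _c ∈ F, X / L ^ (U + V + 2) := by
      rw [hBF]
      refine le_trans (Nat.cast_le.2 card_biUnion_le) ?_
      push_cast
      exact sum_le_sum fun c hc => (hBt c hc).2.1
    rw [sum_const, nsmul_eq_mul] at h1
    refine h1.trans ?_
    calc (#F : ℝ) * (X / L ^ (U + V + 2)) ≤ L ^ V * (X / L ^ (U + V + 2)) :=
          mul_le_mul_of_nonneg_right hFc (by positivity)
      _ = X / L ^ (U + 2) := by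
          rw [show U + V + 2 = V + (U + 2) by ring, pow_add L V]
          have := (hLp0 V).ne'
          field_simp
      _ ≤ X / L ^ (U + 1) := by
          apply div_le_div_of_nonneg_left hX0'.le (hLp0 _)
          exact pow_le_pow_right₀ hL1 (by omega)
  refine ⟨(Bk ∩ Icc 1 X) ∪ BF ∪ Bs ∪ Bn, ?_, ?_, ?_⟩
  · refine union_subset (union_subset (union_subset inter_subset_right ?_) ?_) ?_
    · rw [hBF]; exact biUnion_subset.2 fun c hc => (hBt c hc).1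
    · rw [hBs]; exact filter_subset _ _
    · rw [hBn]; exact filter_subset _ _
  · have h1 : (#((Bk ∩ Icc 1 X) ∪ BF ∪ Bs ∪ Bn) : ℝ) ≤ #Bk + #BF + #Bs + #Bn := by
      have h2 := (card_union_le ((Bk ∩ Icc 1 X) ∪ BF ∪ Bs) Bn)
      have h3 := (card_union_le ((Bk ∩ Icc 1 X) ∪ BF) Bs)
      have h4 := (card_union_le (Bk ∩ Icc 1 X) BF)
      have h5 : #(Bk ∩ Icc 1 X) ≤ #Bk := card_le_card inter_subset_left
      exact_mod_cast (by omega : #((Bk ∩ Icc 1 X) ∪ BF ∪ Bs ∪ Bn) ≤ #Bk + #BF + #Bs + #Bn)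
    refine h1.trans ?_
    have h2 : 4 * (X / L ^ (U + 1)) ≤ X / L ^ U := by
      rw [mul_div_assoc', div_le_div_iff₀ (hLp0 _) (hLp0 _), pow_succ]
      have : 0 ≤ (X : ℝ) * L ^ U := by positivity
      nlinarith
    linarith
  · intro K hK hKB
    rw [mem_union, mem_union, mem_union, not_or, not_or, not_or] at hKB
    obtain ⟨⟨⟨hb1, hb2⟩, hb3⟩, hb4⟩ := hKB
    have hK' := mem_Icc.1 hK
    have hvn : ∀ i, 2 ≤ vn K i := by
      intro i
      by_contra hcon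
      apply hb4
      rw [hBn, mem_filter]
      exact ⟨hK, i, by omega⟩
    have hsq : ¬ IsSquare K := by
      rintro ⟨r, hr⟩
      have h1 := hvn r
      have h2 : vn K r = 0 := by
        unfold vn
        rw [hr]; push_cast
        have : (r : ℤ) ^ 2 - r * r = 0 := by ring
        rw [this]; rfl
      omega
    have hsqZ : ¬ IsSquare (K : ℤ) := by
      rintro ⟨r, hr⟩
      apply hsq
      refine ⟨r.natAbs, ?_⟩
      zify
      rw [abs_mul_abs_self]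
      exact hr
    have hKlow : X / L ^ (U + 1) < K := by
      by_contra hcon
      push Not at hcon
      exact hb3 (by rw [hBs, mem_filter]; exact ⟨hK, hcon⟩)
    refine ⟨hvn, hKlow, hKgood K hK (fun hc => hb1 (mem_inter.2 ⟨hc, hK⟩)) hsqZ, ?_⟩
    intro c hc m N hmN hNS hmK hBf
    have hbt : K ∉ Bt c := fun h => hb2 (by rw [hBF]; exact mem_biUnion.2 ⟨c, hc, h⟩)
    have hgb : ∀ n, |gc c z K n| ≤ 3 * L := by
      intro n
      unfold gc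
      rw [abs_mul]
      calc |c n| * |gK z K n| ≤ 1 * |gK z K n| := mul_le_mul_of_nonneg_right (hF1 c hc n) (abs_nonneg _)
        _ = |gK z K n| := one_mul _
        _ ≤ 3 * L := hffb _
    exact window_K c U C B X K z m N L S hL hS1 hSS hLS hK'.1 hK'.2 hKlow hsq hgb
      ((hBt c hc).2.2 K hK hbt) hmN hNS hmK hBf

end Pool.Agent.N913.AW
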