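import Pool.Agent.TH892.SW.S9

/-!
The fundamental lemma for the values of `n² - K` in a progression.
-/

set_option autoImplicit false

namespace Pool.Agent.N913.AW

open Finset
open Pool.Agent.H373R2.T7 (pz Vz lamz mem_pz Vz_ge)
open Pool.Agent.TH892.SW (rk rk_le rk_nonneg prod_rk prod_rk_ge root_zmod root_card HP HP_nonneg fl_set)
open Pool.Agent.W41 (JJ JJ_lt JJ_le JJ_small)

lemma fac_rk (K : ℤ) (p : ℕ) (hp : p.Prime) : 0 < 1 - rk K p / p ∧ 1 - rk K p / p ≤ 1 := by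
  have hp0 : (0 : ℝ) < p := by exact_mod_cast hp.pos
  have h1 := rk_nonneg K p
  have h2 : 0 ≤ rk K p / p := by positivity
  refine ⟨?_, by linarith⟩
  rw [sub_pos, div_lt_one hp0]
  by_cases h : p = 2
  · subst h
    unfold rk
    norm_num
  · have h3 : (3 : ℝ) ≤ p := by
      have := hp.two_le
      exact_mod_cast (by omega : 3 ≤ p)
    have := rk_le K p
    linarith

/-- the factor of the modulus `q` -/
noncomputable def Rq (K : ℤ) (q : ℕ) : ℝ := ∏ p ∈ q.primeFactors, (1 - rk K p / p)⁻¹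

lemma one_le_Rq (K : ℤ) (q : ℕ) : 1 ≤ Rq K q := by
  unfold Rq
  refine Finset.prod_induction _ (fun x => 1 ≤ x) (fun a b ha hb => one_le_mul_of_one_le_of_one_le ha hb) le_rfl ?_
  intro p hp
  have h := fac_rk K p (Nat.prime_of_mem_primeFactors hp)
  exact (one_le_inv₀ h.1).2 h.2

lemma prod_not (K : ℤ) (q y : ℕ) (hq : 1 ≤ q) (hqy : ∀ p ∈ q.primeFactors, p ≤ y) :
    ∏ p ∈ (pz y).filter (fun p => ¬ p ∣ q), (1 - rk K p / p) = Rq K q * (Vz y * HP K y) := by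
  rw [← prod_rk, ← prod_filter_mul_prod_filter_not (pz y) (fun p => p ∣ q)]
  have h1 : (pz y).filter (fun p => p ∣ q) = q.primeFactors := by
    ext p
    rw [mem_filter, mem_pz, Nat.mem_primeFactors]
    constructor
    · rintro ⟨⟨_, h2⟩, h3⟩; exact ⟨h2, h3, by omega⟩
    · rintro ⟨h2, h3, h4⟩
      exact ⟨⟨hqy p (Nat.mem_primeFactors.2 ⟨h2, h3, h4⟩), h2⟩, h3⟩
  rw [h1]
  unfold Rq
  rw [← mul_assoc, ← prod_mul_distrib]
  have h2 : ∏ p ∈ q.primeFactors, (1 - rk K p / p)⁻¹ * (1 - rk K p / p) = 1 := by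
    apply prod_eq_one
    intro p hp
    exact inv_mul_cancel₀ (fac_rk K p (Nat.prime_of_mem_primeFactors hp)).1.ne'
  rw [h2, one_mul]

lemma root_q (p : ℕ) (hp : p.Prime) (A K : ℤ) (q : ℕ) (hq : ¬ p ∣ q) :
    ((((range p).filter (fun a : ℕ => (p : ℤ) ∣ (A + q * a) ^ 2 - K)).card : ℕ) : ℝ) = rk K p := by
  haveI : Fact p.Prime := ⟨hp⟩
  have h1 := root_card p hp 0 K
  have hq0 : (q : ZMod p) ≠ 0 := by
    intro h
    exact hq ((ZMod.natCast_eq_zero_iff q p).1 h)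
  have key : ∀ a : ℕ, ((p : ℤ) ∣ (A + q * a) ^ 2 - K) ↔ ((A : ZMod p) + (q : ZMod p) * (a : ZMod p)) ^ 2 = (K : ZMod p) := by
    intro a
    rw [← ZMod.intCast_zmod_eq_zero_iff_dvd]
    push_cast
    exact sub_eq_zero
  have key0 : ∀ a : ℕ, ((p : ℤ) ∣ (0 + a) ^ 2 - K) ↔ ((a : ZMod p)) ^ 2 = (K : ZMod p) := by
    intro a
    rw [← ZMod.intCast_zmod_eq_zero_iff_dvd]
    push_cast
    rw [zero_add]
    exact sub_eq_zero
  have h2 : ((range p).filter (fun a : ℕ => (p : ℤ) ∣ (A + q * a) ^ 2 - K)).card =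
      ((range p).filter (fun a : ℕ => (p : ℤ) ∣ (0 + a) ^ 2 - K)).card := by
    refine card_nbij' (fun a : ℕ => ((A : ZMod p) + (q : ZMod p) * (a : ZMod p)).val)
      (fun a : ℕ => (((a : ZMod p) - (A : ZMod p)) * (q : ZMod p)⁻¹).val) ?_ ?_ ?_ ?_
    · intro a ha
      rw [mem_coe, mem_filter] at ha
      rw [mem_coe, mem_filter, mem_range]
      refine ⟨ZMod.val_lt _, ?_⟩
      rw [key0, ZMod.natCast_zmod_val]
      exact (key a).1 ha.2
    · intro a ha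
      rw [mem_coe, mem_filter] at ha
      rw [mem_coe, mem_filter, mem_range]
      refine ⟨ZMod.val_lt _, ?_⟩
      rw [key, ZMod.natCast_zmod_val]
      have : (A : ZMod p) + (q : ZMod p) * (((a : ZMod p) - (A : ZMod p)) * (q : ZMod p)⁻¹) = a := by
        field_simp
        ring
      rw [this]
      exact (key0 a).1 ha.2
    · intro a ha
      rw [mem_coe, mem_filter, mem_range] at ha
      simp only [ZMod.natCast_zmod_val, add_sub_cancel_left]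
      have : (q : ZMod p) * (a : ZMod p) * (q : ZMod p)⁻¹ = a := by field_simp
      rw [this]
      exact ZMod.val_cast_of_lt ha.1
    · intro a ha
      rw [mem_coe, mem_filter, mem_range] at ha
      simp only [ZMod.natCast_zmod_val]
      have : (A : ZMod p) + (q : ZMod p) * (((a : ZMod p) - (A : ZMod p)) * (q : ZMod p)⁻¹) = a := by
        field_simp
        ring
      rw [this]
      exact ZMod.val_cast_of_lt ha.1
  rw [h2, h1]
  rfl

lemma root_q0 (p : ℕ) (A K : ℤ) (q : ℕ) (hq : p ∣ q) (hA : ¬ (p : ℤ) ∣ A ^ 2 - K) :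
    ((range p).filter (fun a : ℕ => (p : ℤ) ∣ (A + q * a) ^ 2 - K)).card = 0 := by
  rw [card_eq_zero, filter_eq_empty_iff]
  intro a _ hd
  apply hA
  obtain ⟨k, hk⟩ := hq
  have e : (A + q * a) ^ 2 - K = (A ^ 2 - K) + p * (k * a * (2 * A + q * a)) := by
    rw [hk]; push_cast; ring
  rw [e] at hd
  exact (dvd_add_left (dvd_mul_right _ _)).1 hd

open Classical in
theorem flq_AP : ∃ C1 y0 : ℕ, 1 ≤ C1 ∧ 2 ≤ y0 ∧ ∀ b : ℕ, C1 ≤ b → ∀ y : ℕ, y0 ≤ y → ∀ X : ℕ, y ^ (C1 * b) ≤ X →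
    ∀ (A K : ℤ) (q : ℕ), 1 ≤ q → (∀ p ∈ q.primeFactors, p ≤ y) → (∀ p ∈ q.primeFactors, ¬ (p : ℤ) ∣ A ^ 2 - K) →
    |((((Icc 1 X).filter (fun t : ℕ => ∀ p ∈ pz y, ¬ (p : ℤ) ∣ (A + q * t) ^ 2 - K)).card : ℕ) : ℝ) -
      X * (Rq K q * (Vz y * HP K y))| ≤ 2 * (1 / 2 : ℝ) ^ b * (X * (Rq K q * (Vz y * HP K y))) := by
  obtain ⟨C0, K0, hC0, hK0, hfl⟩ := fl_set 2
  refine ⟨4 * C0 + 7, K0 + 3, by omega, by omega, fun b hb y hy X hX A K q hq hqy hqA => ?_⟩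
  have hroot : ∀ p ∈ pz y, ((((range p).filter (fun a : ℕ => (p : ℤ) ∣ (A + q * a) ^ 2 - K)).card : ℕ) : ℝ) =
      if p ∣ q then 0 else rk K p := by
    intro p hp
    rw [mem_pz] at hp
    split_ifs with h
    · rw [root_q0 p A K q h (hqA p (Nat.mem_primeFactors.2 ⟨hp.2, h, by omega⟩))]
      simp
    · exact root_q p hp.2 A K q h
  have h1 := hfl b (by omega) y (by omega) X (pz y) (fun p a => (p : ℤ) ∣ (A + q * a) ^ 2 - K) (by
    intro p hp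
    have hp' := mem_pz.1 hp
    refine ⟨hp'.2, hp'.1, ?_⟩
    have h3 : ((((range p).filter (fun a : ℕ => (p : ℤ) ∣ (A + q * a) ^ 2 - K)).card : ℕ) : ℝ) ≤ 2 := by
      rw [hroot p hp]
      split_ifs
      · norm_num
      · exact rk_le K p
    have h3' : ((range p).filter (fun a : ℕ => (p : ℤ) ∣ (A + q * a) ^ 2 - K)).card ≤ 2 := by exact_mod_cast h3
    convert h3')
  have hVe : ∏ p ∈ pz y, (1 - ((((range p).filter (fun a : ℕ => (p : ℤ) ∣ (A + q * a) ^ 2 - K)).card : ℕ) : ℝ) / p) =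
      Rq K q * (Vz y * HP K y) := by
    rw [← prod_not K q y hq hqy, prod_filter]
    apply prod_congr rfl
    intro p hp
    rw [hroot p hp]
    by_cases h : p ∣ q
    · rw [if_pos h, if_neg (not_not.2 h)]; simp
    · rw [if_neg h, if_pos h]
  have hmod : ∀ n p : ℕ, ((p : ℤ) ∣ (A + q * ((n % p : ℕ) : ℤ)) ^ 2 - K) ↔ ((p : ℤ) ∣ (A + q * (n : ℤ)) ^ 2 - K) := by
    intro n p
    have h3 : (A + q * ((n % p : ℕ) : ℤ)) ^ 2 - K ≡ (A + q * (n : ℤ)) ^ 2 - K [ZMOD p] := by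
      apply Int.ModEq.sub_right
      apply Int.ModEq.pow
      apply Int.ModEq.add_left
      apply Int.ModEq.mul_left
      rw [Int.natCast_mod]
      exact Int.mod_modEq _ _
    rw [Int.dvd_iff_emod_eq_zero, Int.dvd_iff_emod_eq_zero, h3]
  have hset : ((Icc 1 X).filter (fun t : ℕ => ∀ p ∈ pz y, ¬ (p : ℤ) ∣ (A + q * t) ^ 2 - K)) =
      ((Icc 1 X).filter (fun n : ℕ => ∀ p ∈ pz y, ¬ (p : ℤ) ∣ (A + q * ((n % p : ℕ) : ℤ)) ^ 2 - K)) := by
    apply filter_congr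
    intro n _
    constructor
    · intro h p hp hd
      exact h p hp ((hmod n p).1 hd)
    · intro h p hp hd
      exact h p hp ((hmod n p).2 hd)
  rw [hset]
  obtain ⟨V, hV⟩ : ∃ V, V = Rq K q * (Vz y * HP K y) := ⟨_, rfl⟩
  rw [← hV] at hVe ⊢
  have h2 : |((((Icc 1 X).filter (fun n : ℕ => ∀ p ∈ pz y, ¬ (p : ℤ) ∣ (A + q * ((n % p : ℕ) : ℤ)) ^ 2 - K)).card : ℕ) : ℝ) - X * V| ≤
      (1 / 2 : ℝ) ^ b * (X * V) + ((JJ y : ℝ) + 2) * ((y : ℝ) ^ (2 * (C0 * b)) * (K0 * (y : ℝ) ^ (2 * (C0 * b)))) := by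
    rw [← hVe]
    convert h1 using 6 <;> congr!
  refine h2.trans ?_
  have hy1 : (1 : ℝ) ≤ y := by exact_mod_cast (by omega : 1 ≤ y)
  have hy2 : (2 : ℝ) ≤ y := by exact_mod_cast (by omega : 2 ≤ y)
  have hy0 : (0 : ℝ) < y := by linarith
  have hVlow : 1 / (y : ℝ) ^ 3 ≤ V := by
    have h3 : 1 / (y : ℝ) ^ 3 ≤ Vz y * HP K y := by
      rw [← prod_rk]; exact prod_rk_ge K y (by omega)
    have h4 := one_le_Rq K q
    have h5 : 0 ≤ Vz y * HP K y := le_trans (by positivity) h3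
    rw [hV]
    nlinarith
  have hJ : ((JJ y : ℝ) + 2) ≤ y * y := by
    have h3 : ((JJ y : ℝ) + 2) ≤ 2 * y := by exact_mod_cast JJ_small y (by omega)
    nlinarith
  have hK0 : (K0 : ℝ) ≤ y := by exact_mod_cast (by omega : K0 ≤ y)
  have h3 : ((JJ y : ℝ) + 2) * ((y : ℝ) ^ (2 * (C0 * b)) * (K0 * (y : ℝ) ^ (2 * (C0 * b)))) ≤
      (y : ℝ) ^ (4 * (C0 * b) + 3) := by
    calc ((JJ y : ℝ) + 2) * ((y : ℝ) ^ (2 * (C0 * b)) * (K0 * (y : ℝ) ^ (2 * (C0 * b))))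
        ≤ (y * y) * ((y : ℝ) ^ (2 * (C0 * b)) * (y * (y : ℝ) ^ (2 * (C0 * b)))) := by gcongr
      _ = (y : ℝ) ^ (4 * (C0 * b) + 3) := by
          rw [show 4 * (C0 * b) + 3 = 2 * (C0 * b) + 2 * (C0 * b) + 1 + 1 + 1 by ring]
          simp only [pow_succ, pow_add]
          ring
  have h4 : (y : ℝ) ^ (4 * (C0 * b) + 3) ≤ (1 / 2 : ℝ) ^ b * (X * V) := by
    have h5 : (y : ℝ) ^ ((4 * C0 + 7) * b) ≤ X := by exact_mod_cast hX
    have h6 : (2 : ℝ) ^ b ≤ (y : ℝ) ^ b := pow_le_pow_left₀ (by norm_num) hy2 b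
    have h7 : (y : ℝ) ^ ((4 * C0 + 7) * b) * (1 / (y : ℝ) ^ 3) ≤ X * V :=
      mul_le_mul h5 hVlow (by positivity) (Nat.cast_nonneg _)
    have h8 : (y : ℝ) ^ (4 * (C0 * b) + 3) * (y : ℝ) ^ b ≤ (y : ℝ) ^ ((4 * C0 + 7) * b) * (1 / (y : ℝ) ^ 3) := by
      rw [mul_one_div, le_div_iff₀ (by positivity), ← pow_add, ← pow_add]
      apply pow_le_pow_right₀ hy1
      have : 1 ≤ b := by omega
      nlinarith
    rw [one_div, inv_pow, ← div_eq_inv_mul, le_div_iff₀ (by positivity)]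
    calc (y : ℝ) ^ (4 * (C0 * b) + 3) * 2 ^ b ≤ (y : ℝ) ^ (4 * (C0 * b) + 3) * (y : ℝ) ^ b := by gcongr
      _ ≤ _ := h8.trans h7
  linarith

end Pool.Agent.N913.AW
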