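import Pool.Agent.N913.AW.Q1

/-!
The model summed over the terms of a progression in a window.
-/

set_option autoImplicit false

namespace Pool.Agent.N913.AW

open Finset
open Pool.Agent.H373R2.T7 (pz Vz lamz mem_pz Vz_ge)
open Pool.Agent.TH892.SW (rk HP HP_nonneg vn wt wt_nonneg wt_anti wt_le gK gK_eq Vz_pos lamz_nonneg
  abel_anti abel_mono vn_right vn_left)

/-- the main term: density of the primes in a progression, divided by the weight -/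
noncomputable def GQ (K : ℤ) (z q : ℕ) : ℝ := Rq K q * HP K z / q

lemma GQ_nonneg (K : ℤ) (z q : ℕ) : 0 ≤ GQ K z q := by
  unfold GQ
  have h1 := one_le_Rq K q
  have h2 := HP_nonneg K z
  have : 0 ≤ Rq K q := by linarith
  positivity

/-- a term of the progression below `a` -/
def st (a β q : ℕ) : ℤ := (a : ℤ) - ((a : ℤ) - β) % q

lemma st_le (a β q : ℕ) (hq : 1 ≤ q) : st a β q ≤ a ∧ (a : ℤ) < st a β q + q := by
  have hq0 : (0 : ℤ) < q := by exact_mod_cast hq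
  have h1 := Int.emod_nonneg ((a : ℤ) - β) hq0.ne'
  have h2 := Int.emod_lt_of_pos ((a : ℤ) - β) hq0
  unfold st
  constructor <;> omega

lemma st_modEq (a β q : ℕ) : (q : ℤ) ∣ st a β q - β := by
  unfold st
  have h := Int.emod_add_mul_ediv ((a : ℤ) - β) q
  refine ⟨((a : ℤ) - β) / q, ?_⟩
  linarith

open Classical in
lemma lam_sum_q (z K a n β q : ℕ) (hq : 1 ≤ q) (han : a ≤ n) :
    ∑ i ∈ Ioc a n, (if i ≡ β [MOD q] then lamz z (vn K i) else 0) = (Vz z)⁻¹ *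
      ((((Icc 1 ((n - st a β q) / q).toNat).filter (fun t : ℕ => ∀ p ∈ pz z, ¬ (p : ℤ) ∣ (st a β q + q * t) ^ 2 - (K : ℤ))).card : ℕ) : ℝ) := by
  obtain ⟨hs1, hs2⟩ := st_le a β q hq
  have hs3 := st_modEq a β q
  obtain ⟨A, hA⟩ : ∃ A, A = st a β q := ⟨_, rfl⟩
  rw [← hA] at hs1 hs2 hs3 ⊢
  have hq0 : (0 : ℤ) < q := by exact_mod_cast hq
  have hnA : (0 : ℤ) ≤ (n : ℤ) - A := by
    have : (a : ℤ) ≤ n := by exact_mod_cast han
    omega
  have hc0 : 0 ≤ ((n : ℤ) - A) / q := Int.ediv_nonneg hnA hq0.le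
  have h1 : ∑ i ∈ Ioc a n, (if i ≡ β [MOD q] then lamz z (vn K i) else 0) =
      ∑ t ∈ Icc 1 (((n : ℤ) - A) / q).toNat, lamz z ((A + q * t) ^ 2 - (K : ℤ)).natAbs := by
    rw [← sum_filter]
    refine sum_nbij' (fun i => (((i : ℤ) - A) / q).toNat) (fun t => (A + q * t).toNat) ?_ ?_ ?_ ?_ ?_
    · intro i hi
      rw [mem_filter, mem_Ioc] at hi
      have h2 : (1 : ℤ) * q ≤ (i : ℤ) - A := by
        have h3 : (q : ℤ) ∣ (i : ℤ) - A := by
          have h4 := (Nat.modEq_iff_dvd.1 hi.2.symm)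
          have : (i : ℤ) - A = ((i : ℤ) - β) - (A - β) := by ring
          rw [this]
          exact dvd_sub h4 hs3
        have h4 : 0 < (i : ℤ) - A := by
          have : (a : ℤ) < i := by exact_mod_cast hi.1.1
          omega
        have := Int.le_of_dvd h4 h3
        omega
      have h5 : (i : ℤ) - A ≤ (n : ℤ) - A := by
        have : (i : ℤ) ≤ n := by exact_mod_cast hi.1.2
        omega
      rw [mem_Icc]
      have h6 := (Int.le_ediv_iff_mul_le hq0).2 h2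
      have h7 := Int.ediv_le_ediv hq0 h5
      constructor <;> omega
    · intro t ht
      rw [mem_Icc] at ht
      rw [mem_filter, mem_Ioc]
      have ht1 : (t : ℤ) ≤ ((n : ℤ) - A) / q := by omega
      have h2 := (Int.le_ediv_iff_mul_le hq0).1 ht1
      have h3 : (q : ℤ) * 1 ≤ q * t := mul_le_mul_of_nonneg_left (by exact_mod_cast ht.1) hq0.le
      have h4 : (t : ℤ) * q = q * t := mul_comm _ _
      refine ⟨⟨by omega, by omega⟩, ?_⟩
      apply Nat.ModEq.symm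
      rw [Nat.modEq_iff_dvd, Int.toNat_of_nonneg (by omega)]
      have : A + q * t - β = (A - β) + q * t := by ring
      rw [this]
      exact dvd_add hs3 (dvd_mul_right _ _)
    · intro i hi
      rw [mem_filter, mem_Ioc] at hi
      have h3 : (q : ℤ) ∣ (i : ℤ) - A := by
        have h4 := (Nat.modEq_iff_dvd.1 hi.2.symm)
        have : (i : ℤ) - A = ((i : ℤ) - β) - (A - β) := by ring
        rw [this]
        exact dvd_sub h4 hs3
      have h4 : 0 < (i : ℤ) - A := by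
        have : (a : ℤ) < i := by exact_mod_cast hi.1.1
        omega
      have h5 : 0 ≤ ((i : ℤ) - A) / q := Int.ediv_nonneg h4.le hq0.le
      rw [Int.toNat_of_nonneg h5, Int.mul_ediv_cancel' h3]
      omega
    · intro t ht
      rw [mem_Icc] at ht
      have h3 : (q : ℤ) * 1 ≤ q * t := mul_le_mul_of_nonneg_left (by exact_mod_cast ht.1) hq0.le
      rw [Int.toNat_of_nonneg (by omega), add_sub_cancel_left, Int.mul_ediv_cancel_left _ hq0.ne']
      simp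
    · intro i hi
      rw [mem_filter, mem_Ioc] at hi
      have h3 : (q : ℤ) ∣ (i : ℤ) - A := by
        have h4 := (Nat.modEq_iff_dvd.1 hi.2.symm)
        have : (i : ℤ) - A = ((i : ℤ) - β) - (A - β) := by ring
        rw [this]
        exact dvd_sub h4 hs3
      have h4 : 0 < (i : ℤ) - A := by
        have : (a : ℤ) < i := by exact_mod_cast hi.1.1
        omega
      have h5 : 0 ≤ ((i : ℤ) - A) / q := Int.ediv_nonneg h4.le hq0.le
      rw [Int.toNat_of_nonneg h5, Int.mul_ediv_cancel' h3]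
      unfold vn
      rw [show A + ((i : ℤ) - A) = i by ring]
  rw [h1, card_filter]
  push_cast
  rw [mul_sum]
  refine sum_congr rfl fun t _ => ?_
  unfold lamz
  have h2 : (∀ p ∈ pz z, ¬ p ∣ ((A + q * t) ^ 2 - (K : ℤ)).natAbs) ↔ (∀ p ∈ pz z, ¬ (p : ℤ) ∣ (A + q * t) ^ 2 - (K : ℤ)) := by
    constructor
    · intro h p hp hd
      exact h p hp (Int.natCast_dvd.1 hd)
    · intro h p hp hd
      exact h p hp (Int.natCast_dvd.2 hd)
  by_cases h4 : ∀ p ∈ pz z, ¬ p ∣ ((A + q * t) ^ 2 - (K : ℤ)).natAbs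
  · rw [if_pos h4, if_pos (h2.1 h4), mul_one]
  · rw [if_neg h4, if_neg (fun h => h4 (h2.2 h)), mul_zero]

/-- the model on short and long intervals, in a progression -/
theorem model_q : ∃ C1 y0 : ℕ, 1 ≤ C1 ∧ 2 ≤ y0 ∧ ∀ b : ℕ, C1 ≤ b → ∀ z : ℕ, y0 ≤ z → ∀ K q β : ℕ, 1 ≤ q →
    (∀ p ∈ q.primeFactors, p ≤ z) → (∀ p ∈ q.primeFactors, ¬ (p : ℤ) ∣ (β : ℤ) ^ 2 - K) → ∀ a n : ℕ, a ≤ n →
    |∑ i ∈ Ioc a n, ((if i ≡ β [MOD q] then lamz z (vn K i) else 0) - GQ K z q)| ≤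
      2 * (1 / 2 : ℝ) ^ b * GQ K z q * ((n : ℝ) - a) + 4 * (z : ℝ) ^ (C1 * b) * (q * GQ K z q) := by
  classical
  obtain ⟨C1, y0, hC1, hy0, h⟩ := flq_AP
  refine ⟨C1, y0, hC1, hy0, fun b hb z hz K q β hq hqz hqβ a n han => ?_⟩
  have hz1 : 1 ≤ z := by omega
  have hV := Vz_pos hz1
  have hH := HP_nonneg K z
  have hR1 := one_le_Rq K q
  have hq0 : (0 : ℝ) < q := by exact_mod_cast hq
  have hq0z : (0 : ℤ) < q := by exact_mod_cast hq
  obtain ⟨hs1, hs2⟩ := st_le a β q hq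
  have hs3 := st_modEq a β q
  obtain ⟨W, hW⟩ : ∃ W, W = Rq K q * HP K z := ⟨_, rfl⟩
  have hW0 : 0 ≤ W := by rw [hW]; exact mul_nonneg (by linarith) hH
  have hG : GQ K z q = W / q := by rw [hW]; rfl
  have hqG : q * GQ K z q = W := by rw [hG]; field_simp
  have hcop : ∀ p ∈ q.primeFactors, ¬ (p : ℤ) ∣ (st a β q) ^ 2 - K := by
    intro p hp hd
    apply hqβ p hp
    have h1 : (p : ℤ) ∣ st a β q - β := dvd_trans (by exact_mod_cast Nat.dvd_of_mem_primeFactors hp) hs3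
    have h2 : (β : ℤ) ^ 2 - K = ((st a β q) ^ 2 - K) - (st a β q - β) * (st a β q + β) := by ring
    rw [h2]
    exact dvd_sub hd (dvd_mul_of_dvd_left h1 _)
  have hbig : ∀ T : ℕ, z ^ (C1 * b) ≤ T →
      |(Vz z)⁻¹ * ((((Icc 1 T).filter (fun t : ℕ => ∀ p ∈ pz z, ¬ (p : ℤ) ∣ (st a β q + q * t) ^ 2 - (K : ℤ))).card : ℕ) : ℝ) - T * W| ≤
        2 * (1 / 2 : ℝ) ^ b * W * T := by
    intro T hT
    have h1 := h b hb z hz T hT (st a β q) K q hq hqz hcop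
    obtain ⟨cd, hcd⟩ : ∃ cd : ℝ, cd = ((((Icc 1 T).filter (fun t : ℕ => ∀ p ∈ pz z, ¬ (p : ℤ) ∣ (st a β q + q * t) ^ 2 - (K : ℤ))).card : ℕ) : ℝ) := ⟨_, rfl⟩
    rw [← hcd] at h1 ⊢
    have e0 : Rq K q * (Vz z * HP K z) = Vz z * W := by rw [hW]; ring
    rw [e0] at h1
    have e : (Vz z)⁻¹ * cd - T * W = (Vz z)⁻¹ * (cd - T * (Vz z * W)) := by
      field_simp
    rw [e, abs_mul, abs_of_pos (inv_pos.2 hV)]
    calc (Vz z)⁻¹ * |cd - T * (Vz z * W)| ≤ (Vz z)⁻¹ * (2 * (1 / 2 : ℝ) ^ b * (T * (Vz z * W))) :=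
          mul_le_mul_of_nonneg_left h1 (inv_nonneg.2 hV.le)
      _ = _ := by field_simp
  rw [sum_sub_distrib, sum_const, Nat.card_Ioc, nsmul_eq_mul, Nat.cast_sub han, lam_sum_q z K a n β q hq han]
  obtain ⟨A, hA⟩ : ∃ A, A = st a β q := ⟨_, rfl⟩
  rw [← hA] at hs1 hs2 hbig ⊢
  obtain ⟨c, hc⟩ : ∃ c, c = (((n : ℤ) - A) / q).toNat := ⟨_, rfl⟩
  rw [← hc]
  have hanz : (a : ℤ) ≤ n := by exact_mod_cast han
  have hc0 : 0 ≤ ((n : ℤ) - A) / q := Int.ediv_nonneg (by omega) hq0z.le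
  have hcz : (c : ℤ) = ((n : ℤ) - A) / q := by rw [hc]; exact Int.toNat_of_nonneg hc0
  have hc1 : (c : ℤ) * q ≤ (n : ℤ) - A := by rw [hcz]; exact Int.ediv_mul_le _ hq0z.ne'
  have hc2 : (n : ℤ) - A < ((c : ℤ) + 1) * q := by rw [hcz]; exact Int.lt_ediv_add_one_mul_self _ hq0z
  have hc1' : (c : ℤ) * q ≤ (n : ℤ) - a + q := by linarith
  have hc2' : (n : ℤ) - a ≤ ((c : ℤ) + 1) * q := by linarith
  have hc1r : (c : ℝ) * q ≤ (n : ℝ) - a + q := by exact_mod_cast hc1'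
  have hc2r : (n : ℝ) - a ≤ ((c : ℝ) + 1) * q := by exact_mod_cast hc2'
  obtain ⟨D, hD⟩ : ∃ D : ℝ, D = (n : ℝ) - a := ⟨_, rfl⟩
  have hD0 : 0 ≤ D := by rw [hD, sub_nonneg]; exact_mod_cast han
  rw [← hD] at hc1r hc2r ⊢
  have hDq1 : (c : ℝ) ≤ D / q + 1 := by
    rw [div_add_one hq0.ne', le_div_iff₀ hq0]; exact hc1r
  have hDq2 : D / q ≤ c + 1 := by
    rw [div_le_iff₀ hq0]; exact hc2r
  rw [hqG, hG]
  have e1 : D * (W / q) = (D / q) * W := by ring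
  have e2 : 2 * (1 / 2 : ℝ) ^ b * (W / q) * D = 2 * (1 / 2 : ℝ) ^ b * W * (D / q) := by ring
  rw [e1, e2]
  have hDq0 : 0 ≤ D / q := by positivity
  have h2b : 0 ≤ (1 / 2 : ℝ) ^ b := by positivity
  have h2b1 : (1 / 2 : ℝ) ^ b ≤ 1 / 2 := by
    calc (1 / 2 : ℝ) ^ b ≤ (1 / 2 : ℝ) ^ 1 := pow_le_pow_of_le_one (by norm_num) (by norm_num) (by omega)
      _ = 1 / 2 := pow_one _
  have hzp : (1 : ℝ) ≤ (z : ℝ) ^ (C1 * b) := one_le_pow₀ (by exact_mod_cast hz1)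
  have hzW : W ≤ (z : ℝ) ^ (C1 * b) * W := by nlinarith
  rcases Nat.lt_or_ge c (z ^ (C1 * b)) with hlt | hge
  · have h1 := hbig (z ^ (C1 * b)) le_rfl
    obtain ⟨T, hT⟩ : ∃ T, T = z ^ (C1 * b) := ⟨_, rfl⟩
    have hTr : (T : ℝ) = (z : ℝ) ^ (C1 * b) := by rw [hT]; push_cast; rfl
    rw [← hT] at h1 hlt
    rw [← hTr] at hzp hzW ⊢
    have h2 : (Vz z)⁻¹ * ((((Icc 1 c).filter (fun t : ℕ => ∀ p ∈ pz z, ¬ (p : ℤ) ∣ (A + q * t) ^ 2 - (K : ℤ))).card : ℕ) : ℝ) ≤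
        (Vz z)⁻¹ * ((((Icc 1 T).filter (fun t : ℕ => ∀ p ∈ pz z, ¬ (p : ℤ) ∣ (A + q * t) ^ 2 - (K : ℤ))).card : ℕ) : ℝ) := by
      apply mul_le_mul_of_nonneg_left _ (inv_nonneg.2 hV.le)
      exact_mod_cast card_le_card (filter_subset_filter _ (Icc_subset_Icc le_rfl hlt.le))
    have h3 : 0 ≤ (Vz z)⁻¹ * ((((Icc 1 c).filter (fun t : ℕ => ∀ p ∈ pz z, ¬ (p : ℤ) ∣ (A + q * t) ^ 2 - (K : ℤ))).card : ℕ) : ℝ) :=
      mul_nonneg (inv_nonneg.2 hV.le) (Nat.cast_nonneg _)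
    have h4 := (abs_le.1 h1).2
    have h5 : D / q ≤ T := by
      have : (c : ℝ) + 1 ≤ T := by exact_mod_cast hlt
      linarith
    have h6 : (D / q) * W ≤ T * W := mul_le_mul_of_nonneg_right h5 hW0
    have h7 : 0 ≤ (D / q) * W := mul_nonneg hDq0 hW0
    have h8 : 2 * (1 / 2 : ℝ) ^ b * W * T ≤ T * W := by
      have h9 : 2 * (1 / 2 : ℝ) ^ b * (W * T) ≤ 1 * (W * T) := by
        apply mul_le_mul_of_nonneg_right (by linarith)
        positivity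
      linarith
    have h9 : 0 ≤ 2 * (1 / 2 : ℝ) ^ b * W * (D / q) := by positivity
    have h10 : 0 ≤ (T : ℝ) * W := by positivity
    rw [abs_le]
    constructor <;> linarith
  · have h1 := abs_le.1 (hbig c hge)
    have h2 : 2 * (1 / 2 : ℝ) ^ b * W * c ≤ 2 * (1 / 2 : ℝ) ^ b * W * (D / q) + W := by
      have h3 : 2 * (1 / 2 : ℝ) ^ b * W * c ≤ 2 * (1 / 2 : ℝ) ^ b * W * (D / q + 1) :=
        mul_le_mul_of_nonneg_left hDq1 (by positivity)
      have h4 : 2 * (1 / 2 : ℝ) ^ b * W ≤ 1 * W := mul_le_mul_of_nonneg_right (by linarith) hW0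
      linarith
    have h5 : (D / q) * W ≤ c * W + W := by
      have := mul_le_mul_of_nonneg_right hDq2 hW0
      linarith
    have h6 : c * W ≤ (D / q) * W + W := by
      have := mul_le_mul_of_nonneg_right hDq1 hW0
      linarith
    rw [abs_le]
    constructor <;> linarith [h1.1, h1.2]

theorem model_wq : ∃ C1 y0 : ℕ, 1 ≤ C1 ∧ 2 ≤ y0 ∧ ∀ b : ℕ, C1 ≤ b → ∀ z : ℕ, y0 ≤ z → ∀ K q β : ℕ, 1 ≤ q →
    (∀ p ∈ q.primeFactors, p ≤ z) → (∀ p ∈ q.primeFactors, ¬ (p : ℤ) ∣ (β : ℤ) ^ 2 - K) → ∀ a n : ℕ, a ≤ n →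
    (∀ i : ℕ, 2 ≤ vn K i) →
    |∑ i ∈ Ioc a n, wt (vn K i) * ((if i ≡ β [MOD q] then lamz z (vn K i) else 0) - GQ K z q)| ≤
      2 * (1 / 2 : ℝ) ^ b * GQ K z q * ∑ i ∈ Ioc a n, wt (vn K i) + 12 * (z : ℝ) ^ (C1 * b) * (q * GQ K z q) := by
  obtain ⟨C1, y0, hC1, hy0, h⟩ := model_q
  refine ⟨C1, y0, hC1, hy0, fun b hb z hz K q β hq hqz hqβ a n han hv => ?_⟩
  have hG := GQ_nonneg K z q
  have hM := h b hb z hz K q β hq hqz hqβ
  obtain ⟨δ, hδ⟩ : ∃ δ : ℝ, δ = 2 * (1 / 2 : ℝ) ^ b * GQ K z q := ⟨_, rfl⟩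
  obtain ⟨R, hR⟩ : ∃ R : ℝ, R = 4 * (z : ℝ) ^ (C1 * b) * (q * GQ K z q) := ⟨_, rfl⟩
  have hδ0 : 0 ≤ δ := by rw [hδ]; positivity
  have hR0 : 0 ≤ R := by rw [hR]; positivity
  rw [← hδ, ← hR] at hM
  rw [← hδ]
  have hw32 : ∀ i, wt (vn K i) ≤ 3 / 2 := fun i => wt_le (hv i)
  have hR9 : 12 * (z : ℝ) ^ (C1 * b) * (q * GQ K z q) = 3 * R := by rw [hR]; ring
  rw [hR9]
  have right : ∀ c d : ℕ, Nat.sqrt K ≤ c → c ≤ d →
      |∑ i ∈ Ioc c d, wt (vn K i) * ((if i ≡ β [MOD q] then lamz z (vn K i) else 0) - GQ K z q)| ≤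
        δ * ∑ i ∈ Ioc c d, wt (vn K i) + 3 / 2 * R := by
    intro c d hc hcd
    rcases Nat.eq_or_lt_of_le hcd with heq | hlt
    · rw [heq, Ioc_self, sum_empty, sum_empty, abs_zero, mul_zero, zero_add]
      positivity
    · refine (abel_anti (fun i => wt (vn K i)) (fun i => (if i ≡ β [MOD q] then lamz z (vn K i) else 0) - GQ K z q) c d hlt
        (fun i => wt_nonneg _) ?_ δ R hδ0 hR0 (fun i h1 _ => hM c i h1)).trans ?_
      · intro i h1 _
        apply wt_anti (hv i)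
        rw [(vn_right K i (by omega)).1]
        omega
      · have := mul_le_mul_of_nonneg_left (hw32 (c + 1)) hR0
        linarith
  have left : ∀ c d : ℕ, c ≤ d → d ≤ Nat.sqrt K →
      |∑ i ∈ Ioc c d, wt (vn K i) * ((if i ≡ β [MOD q] then lamz z (vn K i) else 0) - GQ K z q)| ≤
        δ * ∑ i ∈ Ioc c d, wt (vn K i) + 3 / 2 * R := by
    intro c d hcd hd
    rcases Nat.eq_or_lt_of_le hcd with heq | hlt
    · rw [heq, Ioc_self, sum_empty, sum_empty, abs_zero, mul_zero, zero_add]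
      positivity
    · refine (abel_mono (fun i => wt (vn K i)) (fun i => (if i ≡ β [MOD q] then lamz z (vn K i) else 0) - GQ K z q) c d hlt
        (fun i => wt_nonneg _) ?_ δ R hδ0 hR0 (fun i _ h2 => hM i d h2)).trans ?_
      · intro i _ h2
        apply wt_anti (hv (i + 1))
        have h3 := vn_left K i (by omega)
        have h4 := vn_left K (i + 1) (by omega)
        have h5 : i ^ 2 ≤ (i + 1) ^ 2 := Nat.pow_le_pow_left (by omega) 2
        omega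
      · have := mul_le_mul_of_nonneg_left (hw32 d) hR0
        linarith
  rcases Nat.le_total n (Nat.sqrt K) with h1 | h1
  · have := left a n han h1
    linarith
  · rcases Nat.le_total (Nat.sqrt K) a with h2 | h2
    · have := right a n h2 han
      linarith
    · have h3 := left a _ h2 le_rfl
      have h4 := right _ n le_rfl h1
      rw [← sum_Ioc_consecutive _ h2 h1, ← sum_Ioc_consecutive (fun i => wt (vn K i)) h2 h1]
      refine (abs_add_le _ _).trans ?_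
      linarith

/-- one number `K`, one progression -/
theorem one_window_q : ∃ C1 y0 : ℕ, 1 ≤ C1 ∧ 2 ≤ y0 ∧ ∀ b : ℕ, C1 ≤ b → ∀ z : ℕ, y0 ≤ z → ∀ K q β : ℕ, 1 ≤ q →
    (∀ p ∈ q.primeFactors, p ≤ z) → (∀ p ∈ q.primeFactors, ¬ (p : ℤ) ∣ (β : ℤ) ^ 2 - K) → ∀ a n : ℕ, a ≤ n →
    (∀ i : ℕ, 2 ≤ vn K i) →
    |(((Ioc a n).filter (fun i => i ≡ β [MOD q] ∧ (vn K i).Prime)).card : ℝ) - GQ K z q * ∑ i ∈ Ioc a n, wt (vn K i)| ≤
      |∑ i ∈ Ioc a n, (if i ≡ β [MOD q] then 1 else 0) * gK z K i| +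
      2 * (1 / 2 : ℝ) ^ b * GQ K z q * ∑ i ∈ Ioc a n, wt (vn K i) + 12 * (z : ℝ) ^ (C1 * b) * (q * GQ K z q) := by
  obtain ⟨C1, y0, hC1, hy0, h⟩ := model_wq
  refine ⟨C1, y0, hC1, hy0, fun b hb z hz K q β hq hqz hqβ a n han hv => ?_⟩
  have h1 := h b hb z hz K q β hq hqz hqβ a n han hv
  have e : (((Ioc a n).filter (fun i => i ≡ β [MOD q] ∧ (vn K i).Prime)).card : ℝ) - GQ K z q * ∑ i ∈ Ioc a n, wt (vn K i) =
      ∑ i ∈ Ioc a n, (if i ≡ β [MOD q] then 1 else 0) * gK z K i +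
      ∑ i ∈ Ioc a n, wt (vn K i) * ((if i ≡ β [MOD q] then lamz z (vn K i) else 0) - GQ K z q) := by
    rw [← sum_add_distrib, card_filter]
    push_cast
    rw [mul_sum, ← sum_sub_distrib]
    refine sum_congr rfl fun i _ => ?_
    rw [gK_eq z K i (hv i)]
    by_cases h2 : i ≡ β [MOD q]
    · simp only [h2, true_and, if_true]
      ring
    · simp only [h2, false_and, if_false]
      ring
  rw [e]
  refine (abs_add_le _ _).trans ?_
  linarith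

end Pool.Agent.N913.AW
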