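import Pool.Agent.N913.AW.A6
import Pool.Agent.N913.AW.Q2

/-!
Arbitrary weights and all progressions to small moduli.
-/

set_option autoImplicit false

namespace Pool.Agent.N913.AW

open Finset Filter Topology
open Pool.Agent.TH892.SW (ff gK vn HP wt wt_nonneg HP_ge Vz_pos low_w fin_K HP_nonneg)
open Pool.Agent.H373R2.T7 (pz Vz lamz mem_pz Vz_inv_small)
open Pool.Agent.H442R2.EHI (evt_log_pow evt_log_ge)

/-- the indicators of residue classes -/
noncomputable def clF (Q : ℕ) : Finset (ℕ → ℝ) := by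
  classical
  exact ((Icc 1 Q) ×ˢ (range Q)).image (fun p : ℕ × ℕ => fun n : ℕ => if n ≡ p.2 [MOD p.1] then (1 : ℝ) else 0)

lemma clF_card (Q : ℕ) : #(clF Q) ≤ Q * Q := by
  classical
  unfold clF
  refine card_image_le.trans ?_
  rw [card_product, Nat.card_Icc, card_range, Nat.add_sub_cancel]

lemma clF_le (Q : ℕ) (c : ℕ → ℝ) (hc : c ∈ clF Q) (n : ℕ) : |c n| ≤ 1 := by
  classical
  unfold clF at hc
  rw [mem_image] at hc
  obtain ⟨p, _, rfl⟩ := hc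
  simp only
  split_ifs <;> simp

lemma mem_clF (Q q β : ℕ) (hq : 1 ≤ q) (hqQ : q ≤ Q) :
    (fun n : ℕ => if n ≡ β [MOD q] then (1 : ℝ) else 0) ∈ clF Q := by
  classical
  unfold clF
  rw [mem_image]
  refine ⟨(q, β % q), ?_, ?_⟩
  · rw [mem_product, mem_Icc, mem_range]
    have := Nat.mod_lt β hq
    exact ⟨⟨hq, hqQ⟩, by simp only; omega⟩
  · funext n
    simp only
    have h : (n ≡ β % q [MOD q]) ↔ (n ≡ β [MOD q]) := by
      constructor
      · intro h; exact h.trans (Nat.mod_modEq β q)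
      · intro h; exact h.trans (Nat.mod_modEq β q).symm
    by_cases h2 : n ≡ β [MOD q]
    · rw [if_pos (h.2 h2), if_pos h2]
    · rw [if_neg (fun h3 => h2 (h.1 h3)), if_neg h2]

lemma fin_Q (b q : ℕ) (U k : ℕ) (L H Sw P h cnt S Zb R : ℝ) (hL : 10000 ≤ L) (hH : 0 < H) (hSw : H / (2 * L) ≤ Sw)
    (hP : 1 / L ^ 2 ≤ P) (hh : 0 < h) (hPh : |P - h| ≤ 1 / L ^ (U + 1) * h) (hR : 1 ≤ R) (hq : 1 ≤ q)
    (hS0 : 0 ≤ S) (hS : q * S ≤ H / L ^ (U + 5)) (_hZ0 : 0 ≤ Zb) (hZ : 4 / 3 * Zb * q ≤ L ^ k) (hk : L ^ (k + U + 4) ≤ H)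
    (hw : |cnt - R * P / q * Sw| ≤ S + 2 * (1 / 2 : ℝ) ^ b * (R * P / q) * Sw + 12 * Zb * (q * (R * P / q))) :
    |cnt - R / q * (h * Sw)| ≤ (4 * (1 / 2 : ℝ) ^ b + 1 / L ^ U) * (R / q * (h * Sw)) := by
  have hq0 : (0 : ℝ) < q := by exact_mod_cast hq
  have hR0 : 0 < R := by linarith
  have hkey := fin_K U k L H Sw P h (cnt * (q / R)) (q * S) (4 / 3 * Zb * q) ((1 / 2 : ℝ) ^ b) hL hH hSw hP hh hPh hS
    (by positivity) hZ hk (by
      have e : cnt * (q / R) - P * Sw = (q / R) * (cnt - R * P / q * Sw) := by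
        field_simp
      rw [e, abs_mul, abs_of_pos (by positivity)]
      have h1 := mul_le_mul_of_nonneg_left hw (show 0 ≤ (q : ℝ) / R by positivity)
      refine h1.trans ?_
      have e2 : (q : ℝ) / R * (S + 2 * (1 / 2 : ℝ) ^ b * (R * P / q) * Sw + 12 * Zb * (q * (R * P / q))) =
          (q / R) * S + 2 * (1 / 2 : ℝ) ^ b * P * Sw + 9 * (4 / 3 * Zb * q) * P := by
        field_simp
        ring
      rw [e2]
      have h2 : (q : ℝ) / R * S ≤ q * S := by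
        apply mul_le_mul_of_nonneg_right _ hS0
        exact div_le_self hq0.le hR
      linarith)
  have e : cnt - R / q * (h * Sw) = (R / q) * (cnt * (q / R) - h * Sw) := by
    field_simp
  rw [e, abs_mul, abs_of_pos (by positivity)]
  calc R / q * |cnt * (q / R) - h * Sw| ≤ R / q * ((4 * (1 / 2 : ℝ) ^ b + 1 / L ^ U) * (h * Sw)) :=
        mul_le_mul_of_nonneg_left hkey (by positivity)
    _ = _ := by ring

theorem weights_progressions (U C V : ℕ) (ε : ℝ) (hε : 0 < ε) : ∃ B E X0 : ℕ, ∀ X : ℕ, X0 ≤ X →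
    ∀ F : Finset (ℕ → ℝ), (#F : ℝ) ≤ Real.log X ^ V → (∀ c ∈ F, ∀ n, |c n| ≤ 1) →
    ∃ Bad : Finset ℕ, Bad ⊆ Icc 1 X ∧ (#Bad : ℝ) ≤ X / Real.log X ^ U ∧ ∀ K ∈ Icc 1 X, K ∉ Bad → (∀ i, 2 ≤ vn K i) ∧
    ∃ h : ℝ, 0 < h ∧ Tendsto (fun N => HP K N) atTop (𝓝 h) ∧
    ∀ m N : ℕ, m < N → (N : ℝ) ≤ √X * Real.log X ^ C →
      |(m : ℝ) - √K| ≤ ((N : ℝ) - m) * Real.log X ^ C → Real.log X ^ B ≤ (N : ℝ) - m →
      (∀ c ∈ F, |∑ i ∈ Ioc m N, c i * gK ⌊Real.log X ^ E⌋₊ K i| ≤ ((N : ℝ) - m) / Real.log X ^ U) ∧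
      (∀ q : ℕ, 1 ≤ q → (q : ℝ) ≤ Real.log X ^ V → ∀ β : ℕ, (∀ p ∈ q.primeFactors, ¬ (p : ℤ) ∣ (β : ℤ) ^ 2 - K) →
        |(((Ioc m N).filter (fun i => i ≡ β [MOD q] ∧ (vn K i).Prime)).card : ℝ) -
            Rq K q / q * (h * ∑ i ∈ Ioc m N, wt (vn K i))| ≤
          ε * (Rq K q / q * (h * ∑ i ∈ Ioc m N, wt (vn K i)))) := by
  classical
  obtain ⟨Bf, E1, hcore⟩ := coreF (U + V + 1) C (2 * V + 1)
  obtain ⟨C1, y0, hC1, hy0, hwin⟩ := one_window_q
  obtain ⟨b0, hb0⟩ := exists_pow_lt_of_lt_one (show (0 : ℝ) < ε / 8 by positivity) (show (1 / 2 : ℝ) < 1 by norm_num)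
  obtain ⟨b, hb⟩ : ∃ b, b = max b0 C1 := ⟨_, rfl⟩
  have hbε : (1 / 2 : ℝ) ^ b ≤ ε / 8 :=
    (pow_le_pow_of_le_one (by norm_num) (by norm_num) (by omega)).trans hb0.le
  obtain ⟨E, hE⟩ : ∃ E, E = E1 + V + 1 := ⟨_, rfl⟩
  obtain ⟨k0, hk0⟩ : ∃ k0, k0 = E * (C1 * b) + V + 1 := ⟨_, rfl⟩
  obtain ⟨X1, hX1⟩ := hcore E (by omega)
  obtain ⟨X2, hX2⟩ := Vz_inv_small E
  have hev : ∀ᶠ X : ℕ in atTop, (10000 : ℝ) ≤ Real.log X ∧ Real.log X ^ (2 * C) ≤ (X : ℝ) ^ (1 / 2 : ℝ) ∧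
      max ((y0 : ℝ) + 1) (2 / ε) ≤ Real.log X := by
    filter_upwards [evt_log_ge 10000, evt_log_pow (2 * C) (1 / 2) (by norm_num),
      evt_log_ge (max ((y0 : ℝ) + 1) (2 / ε))] with X h1 h2 h3
    exact ⟨h1, h2, h3⟩
  obtain ⟨X3, hX3⟩ := eventually_atTop.1 hev
  refine ⟨Bf + (k0 + U + V + 10), E, max (max X1 X2) (max X3 1), fun X hX F hFc hF1 => ?_⟩
  have g1 : X1 ≤ X := le_trans (le_trans (le_max_left _ _) (le_max_left _ _)) hX
  have g2 : X2 ≤ X := le_trans (le_trans (le_max_right _ _) (le_max_left _ _)) hX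
  have g3 : X3 ≤ X := le_trans (le_trans (le_max_left _ _) (le_max_right _ _)) hX
  have g4 : 1 ≤ X := le_trans (le_trans (le_max_right _ _) (le_max_right _ _)) hX
  obtain ⟨hL, hLS, hLm⟩ := hX3 X g3
  have hLy : (y0 : ℝ) + 1 ≤ Real.log X := (le_max_left _ _).trans hLm
  have hLε : 2 / ε ≤ Real.log X := (le_max_right _ _).trans hLm
  rw [← Real.sqrt_eq_rpow] at hLS
  have hV' := hX2 X g2
  have hco := hX1 X g1 (F ∪ clF ⌊Real.log X ^ V⌋₊)
  clear hcore hX1 hX2 hX3 hev hX g1 g2 g3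
  obtain ⟨L, hLd⟩ : ∃ L, L = Real.log X := ⟨_, rfl⟩
  rw [← hLd] at hL hLS hLy hLε hV' hFc hco ⊢
  have hL0 : 0 < L := by linarith
  have hL1 : 1 ≤ L := by linarith
  have hLp0 : ∀ n : ℕ, 0 < L ^ n := fun n => by positivity
  have hLp : ∀ n : ℕ, 1 ≤ L ^ n := fun n => one_le_pow₀ hL1
  obtain ⟨Q, hQ⟩ : ∃ Q, Q = ⌊L ^ V⌋₊ := ⟨_, rfl⟩
  rw [← hQ] at hco
  have hQr : (Q : ℝ) ≤ L ^ V := by rw [hQ]; exact Nat.floor_le (by positivity)
  obtain ⟨Bad, hB1, hB2, hB3⟩ := hco (by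
    have h1 := card_union_le F (clF Q)
    have h2 := clF_card Q
    have h3 : (#(F ∪ clF Q) : ℝ) ≤ #F + (Q : ℝ) * Q := by exact_mod_cast h1.trans (by omega)
    refine h3.trans ?_
    have h4 : (Q : ℝ) * Q ≤ L ^ V * L ^ V := mul_le_mul hQr hQr (Nat.cast_nonneg _) (hLp0 _).le
    have h5 : L ^ V ≤ L ^ V * L ^ V := by nlinarith [hLp V, hLp0 V]
    calc (#F : ℝ) + Q * Q ≤ L ^ V * L ^ V + L ^ V * L ^ V := by linarith
      _ ≤ L * (L ^ V * L ^ V) := by nlinarith [hLp0 V, mul_pos (hLp0 V) (hLp0 V)]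
      _ = L ^ (2 * V + 1) := by ring) (by
    intro c hc n
    rw [mem_union] at hc
    rcases hc with h | h
    · exact hF1 c h n
    · exact clF_le Q c h n)
  refine ⟨Bad, hB1, ?_, fun K hK hKB => ?_⟩
  · refine hB2.trans ?_
    apply div_le_div_of_nonneg_left (Nat.cast_nonneg _) (hLp0 _)
    exact pow_le_pow_right₀ hL1 (by omega)
  obtain ⟨hvn, hKlow, ⟨h, hh, hlim, hPh⟩, hwd⟩ := hB3 K hK hKB
  have hK' := mem_Icc.1 hK
  refine ⟨hvn, h, hh, hlim, fun m N hmN hNS hmK hBf => ?_⟩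
  obtain ⟨H, hH⟩ : ∃ H : ℝ, H = (N : ℝ) - m := ⟨_, rfl⟩
  have hH0 : 0 < H := by
    rw [hH, sub_pos]; exact_mod_cast hmN
  have hBf1 : L ^ Bf ≤ (N : ℝ) - m := (pow_le_pow_right₀ hL1 (by omega)).trans hBf
  constructor
  · intro c hc
    refine (hwd c (mem_union_left _ hc) m N hmN hNS hmK hBf1).trans ?_
    rw [← hH]
    apply div_le_div_of_nonneg_left hH0.le (hLp0 _)
    exact pow_le_pow_right₀ hL1 (by omega)
  · intro q hq hqL β hβ
    have hqQ : q ≤ Q := by rw [hQ]; exact Nat.le_floor hqL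
    have h1 := hwd _ (mem_union_right _ (mem_clF Q q β hq hqQ)) m N hmN hNS hmK hBf1
    obtain ⟨z, hz⟩ : ∃ z, z = ⌊L ^ E⌋₊ := ⟨_, rfl⟩
    rw [← hz] at h1 hPh
    have hzle : (z : ℝ) ≤ L ^ E := by rw [hz]; exact Nat.floor_le (by positivity)
    have hLE : L ≤ L ^ E := le_self_pow₀ hL1 (by omega)
    have hzge : L ^ E - 1 ≤ z := by
      have := Nat.lt_floor_add_one (L ^ E)
      rw [← hz] at this
      linarith
    have hzy : y0 ≤ z := by
      have : (y0 : ℝ) ≤ z := by linarith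
      exact_mod_cast this
    have hz1 : 1 ≤ z := by omega
    have hqz : q ≤ z := by
      have h2 : L ^ V + 1 ≤ L ^ E := by
        have h3 : L ^ (V + 1) ≤ L ^ E := pow_le_pow_right₀ hL1 (by omega)
        have h4 : L ^ V + 1 ≤ L ^ (V + 1) := by
          rw [pow_succ]
          nlinarith [hLp V]
        linarith
      have : (q : ℝ) ≤ z := by linarith
      exact_mod_cast this
    have hVs := hV' z hz1 hzle
    have hVpos := Vz_pos hz1
    have hVge : 1 / L ≤ Vz z := by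
      rw [div_le_iff₀ hL0]
      have := mul_le_mul_of_nonneg_right hVs hVpos.le
      rw [inv_mul_cancel₀ hVpos.ne'] at this
      linarith
    have hHP : 1 / L ^ 2 ≤ HP K z := by
      refine le_trans ?_ (HP_ge K z)
      rw [show 1 / L ^ 2 = (1 / L) ^ 2 by rw [one_div_pow]]
      exact pow_le_pow_left₀ (by positivity) hVge 2
    have hXr : (1 : ℝ) ≤ X := by exact_mod_cast g4
    obtain ⟨S, hS⟩ : ∃ S, S = √(X : ℝ) := ⟨_, rfl⟩
    rw [← hS] at hLS hNS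
    have hSS : S * S = X := by rw [hS]; exact Real.mul_self_sqrt (by linarith)
    have hS1 : 1 ≤ S := by rw [hS]; exact Real.one_le_sqrt.2 hXr
    have hSw := low_w C X K m N L S hLd hL1 hS1 hSS hLS hK'.2 hvn hmN hNS
    have hw := hwin b (by omega) z hzy K q β hq (fun p hp => (Nat.le_of_mem_primeFactors hp).trans hqz) hβ m N hmN.le hvn
    obtain ⟨Sw, hSwd⟩ : ∃ Sw, Sw = ∑ i ∈ Ioc m N, wt (vn K i) := ⟨_, rfl⟩
    rw [← hSwd] at hSw hw ⊢
    obtain ⟨SS, hSSd⟩ : ∃ SS, SS = |∑ i ∈ Ioc m N, (if i ≡ β [MOD q] then (1 : ℝ) else 0) * gK z K i| := ⟨_, rfl⟩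
    rw [← hSSd] at hw h1
    rw [← hH] at h1 hSw hBf
    have hq0 : (0 : ℝ) < q := by exact_mod_cast hq
    have hfin := fin_Q b q 1 k0 L H Sw (HP K z) h _ SS ((z : ℝ) ^ (C1 * b)) (Rq K q) hL hH0 hSw hHP hh
      (by
        refine hPh.trans ?_
        apply mul_le_mul_of_nonneg_right _ hh.le
        apply one_div_le_one_div_of_le (hLp0 _)
        exact pow_le_pow_right₀ hL1 (by omega))
      (one_le_Rq K q) hq (by rw [hSSd]; exact abs_nonneg _)
      (by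
        calc (q : ℝ) * SS ≤ L ^ V * (H / L ^ (U + V + 1 + 5)) := mul_le_mul hqL h1 (by rw [hSSd]; exact abs_nonneg _) (hLp0 _).le
          _ = H / L ^ (U + 1 + 5) := by
              rw [show U + V + 1 + 5 = V + (U + 1 + 5) by ring, pow_add L V]
              have := (hLp0 V).ne'
              field_simp
          _ ≤ H / L ^ (1 + 5) := by
              apply div_le_div_of_nonneg_left hH0.le (hLp0 _)
              exact pow_le_pow_right₀ hL1 (by omega))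
      (by positivity)
      (by
        have h2 : (z : ℝ) ^ (C1 * b) ≤ L ^ (E * (C1 * b)) := by
          rw [pow_mul L E]
          exact pow_le_pow_left₀ (Nat.cast_nonneg _) hzle _
        calc 4 / 3 * (z : ℝ) ^ (C1 * b) * q ≤ L * L ^ (E * (C1 * b)) * L ^ V := by
              apply mul_le_mul _ hqL hq0.le (by positivity)
              apply mul_le_mul _ h2 (by positivity) hL0.le
              linarith
          _ = L ^ k0 := by rw [hk0]; ring)
      ((pow_le_pow_right₀ hL1 (by omega)).trans hBf) hw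
    refine hfin.trans ?_
    apply mul_le_mul_of_nonneg_right
    · have h2 : 1 / L ^ 1 ≤ ε / 2 := by
        rw [pow_one, div_le_div_iff₀ hL0 (by norm_num)]
        rw [div_le_iff₀ hε] at hLε
        linarith
      linarith
    · have h3 : 0 ≤ Sw := by rw [hSwd]; exact sum_nonneg fun i _ => wt_nonneg _
      have := one_le_Rq K q
      have h4 : 0 ≤ Rq K q := by linarith
      positivity

end Pool.Agent.N913.AW
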